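import Pool.Agent.H62.VC.Coord
import Pool.Graph.R_pool_sql_team_seeded_843ab51a.V11115.VC.K

/-!
The lower bound of the traces, and the growth.
-/

set_option autoImplicit false

namespace Pool.Agent.H62.VC

open Matrix Finset Filter Topology Pool.Agent.H550R3.Jones Pool.Agent.W715.VC
  Pool.Agent.V11115.VC

variable {N : ℕ}

/-! ### alternating words -/

lemma lett_pos (s : Bool) : Pos (lett s) := by
  cases s
  · right; rfl
  · left; rfl

lemma alt_pos : ∀ (bs : List ℕ) (s : Bool), ∀ l ∈ alt s bs, Pos l := by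
  intro bs
  induction bs with
  | nil => intro s l hl; simp [alt] at hl
  | cons b bs ih =>
    intro s l hl
    rw [alt, List.mem_append] at hl
    rcases hl with h | h
    · rw [List.eq_of_mem_replicate h]; exact lett_pos s
    · exact ih _ l h

/-- the letter after `n` blocks -/
def sg (n : ℕ) (s : Bool) : Bool := if n % 2 = 0 then s else !s

lemma sg_succ (n : ℕ) (s : Bool) : sg (n + 1) s = sg n (!s) := by
  unfold sg
  rcases Nat.mod_two_eq_zero_or_one n with h | h
  · rw [if_neg (by omega), if_pos h]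
  · rw [if_pos (by omega), if_neg (by omega), Bool.not_not]

lemma alt_append : ∀ (as bs : List ℕ) (s : Bool), alt s (as ++ bs) =
    alt s as ++ alt (sg as.length s) bs := by
  intro as
  induction as with
  | nil => intro bs s; simp [alt, sg]
  | cons a as ih =>
    intro bs s
    rw [List.cons_append, alt, alt, ih, List.append_assoc, List.length_cons, sg_succ]

lemma dl_lett (s : Bool) : dl (lett s) = lett (!s) := by cases s <;> rfl

lemma dual_append (u w : List (ℕ × Bool)) : dual (u ++ w) = dual w ++ dual u := by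
  simp [dual]

lemma dual_rep' (a : ℕ) (s : Bool) : dual (List.replicate a (lett s)) =
    List.replicate a (lett (!s)) := by
  unfold dual
  rw [List.map_replicate, List.reverse_replicate, dl_lett]

lemma dual_alt : ∀ (as : List ℕ) (s : Bool), dual (alt s as) = alt (sg as.length s) as.reverse := by
  intro as
  induction as with
  | nil => intro s; rfl
  | cons a as ih =>
    intro s
    rw [alt, dual_append, dual_rep', ih, List.reverse_cons, alt_append, List.length_reverse,
      List.length_cons, sg_succ]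
    congr 1
    have : sg as.length (sg as.length (!s)) = !s := by
      unfold sg
      split_ifs <;> simp
    rw [this]
    simp [alt]

lemma pal_alt (as : List ℕ) (s : Bool) : alt s as ++ dual (alt s as) =
    alt s (as ++ as.reverse) := by
  rw [alt_append, dual_alt]

lemma wpow_alt {bs : List ℕ} (hbs : bs.length % 2 = 0) (s : Bool) (n : ℕ) :
    wpow (alt s bs) n = alt s (List.replicate n bs).flatten := by
  induction n with
  | zero => rfl
  | succ n ih =>
    have : wpow (alt s bs) (n + 1) = alt s bs ++ wpow (alt s bs) n := by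
      simp [wpow, List.replicate_succ]
    rw [this, ih, List.replicate_succ, List.flatten_cons, alt_append]
    congr 2
    unfold sg
    rw [if_pos hbs]

lemma mem_flatten_rep {bs : List ℕ} {n b : ℕ} (h : b ∈ (List.replicate n bs).flatten) : b ∈ bs := by
  rw [List.mem_flatten] at h
  obtain ⟨l, hl, hb⟩ := h
  rw [List.eq_of_mem_replicate hl] at hb
  exact hb

lemma length_flatten_rep (bs : List ℕ) (n : ℕ) :
    (List.replicate n bs).flatten.length = n * bs.length := by
  simp

/-- every positive word is alternating -/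
lemma exists_alt : ∀ (w : List (ℕ × Bool)), (∀ l ∈ w, Pos l) → w ≠ [] →
    ∃ (s : Bool) (as : List ℕ), w = alt s as ∧ as ≠ [] ∧ ∀ a ∈ as, 1 ≤ a ∧ a ≤ w.length := by
  intro w
  induction w with
  | nil => intro _ h; exact absurd rfl h
  | cons l w ih =>
    intro hw _
    obtain ⟨s', hs'⟩ : ∃ s', l = lett s' := by
      rcases hw l List.mem_cons_self with h | h
      · exact ⟨true, h⟩
      · exact ⟨false, h⟩
    rcases eq_or_ne w [] with h | h
    · subst h
      exact ⟨s', [1], by simp [alt, hs'], by simp, by simp⟩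
    · obtain ⟨s, as, h1, h2, h3⟩ := ih (fun l' h' => hw l' (List.mem_cons_of_mem _ h')) h
      cases as with
      | nil => exact absurd rfl h2
      | cons a as =>
        rcases eq_or_ne s' s with hs | hs
        · refine ⟨s, (a + 1) :: as, ?_, by simp, ?_⟩
          · rw [hs', hs, h1, alt, alt, List.replicate_succ, List.cons_append]
          · intro b hb
            rw [List.length_cons]
            rcases List.mem_cons.1 hb with rfl | hb
            · have := h3 a List.mem_cons_self
              omega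
            · have := h3 b (List.mem_cons_of_mem _ hb)
              omega
        · have hs2 : s = !s' := by cases s <;> cases s' <;> simp_all
          refine ⟨s', 1 :: a :: as, ?_, by simp, ?_⟩
          · rw [hs', h1, hs2]
            simp [alt]
          · intro b hb
            rw [List.length_cons]
            rcases List.mem_cons.1 hb with rfl | hb
            · omega
            · have := h3 b hb
              omega

/-! ### the spectral radius -/

lemma exists_z {m K : ℕ} (hm : m < N) (hK : N + K = 2 * m + 1) : ∃ z : I3 N → ℂ, InK m z ∧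
    ∀ d, d ≤ K → Yc N m z d = if d = 0 then 1 else 0 := by
  obtain ⟨z, hz, hzc⟩ := exists_coord hm (fun i => if i = m then 1 else 0)
  refine ⟨z, hz, fun d hd => ?_⟩
  unfold Yc
  rw [hzc _ (by omega)]
  by_cases h : d = 0
  · subst h; simp
  · rw [if_neg (by omega), if_neg h, mul_zero]

/-- the functional grows -/
lemma Phi_ge {m K A : ℕ} {e : ℝ} (h : Par N K A e) (hm : m < N) (hK : N + K = 2 * m + 1)
    {z : I3 N → ℂ} (hz : InK m z) (hz0 : ∀ d, d ≤ K → Yc N m z d = if d = 0 then 1 else 0)
    {bs : List ℕ} (hbs : ∀ b ∈ bs, 1 ≤ b ∧ b ≤ A) {r : ℕ} (hr : bs.length = 2 * r) (s : Bool)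
    (n : ℕ) : ((1 + (1 - 2 * e)) ^ (K * r)) ^ n ≤ ‖Phi N m K (rep3 N (alt s bs) ^ n *ᵥ z)‖ := by
  have h1 := h.grow_one (bs := (List.replicate n bs).flatten) (fun b hb => hbs b (mem_flatten_rep hb))
    (r := n * r) (by rw [length_flatten_rep, hr]; ring) s
  obtain ⟨c, hc, h2⟩ := Yc_word hm hK hz hz0 (alt s (List.replicate n bs).flatten) (alt_pos _ _)
  rw [← rep3_wpow, wpow_alt (by omega)]
  have h3 : Phi N m K (rep3 N (alt s (List.replicate n bs).flatten) *ᵥ z) =
      c * Ev (List.replicate K 1) (TW N K (alt s (List.replicate n bs).flatten)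
        fun d => if d = 0 then 1 else 0) := by
    rw [← Ev_mul]
    exact Ev_congr _ fun d hd => h2 d (by simpa using hd)
  rw [h3, norm_mul, hc, one_mul, ← pow_mul]
  refine le_trans (le_of_eq ?_) h1
  congr 1
  ring

/-- **the lower bound of the trace** -/
theorem trace_alt {m K A : ℕ} {e : ℝ} (h : Par N K A e) (hm : m < N) (hK : N + K = 2 * m + 1)
    {as : List ℕ} (has : ∀ a ∈ as, 1 ≤ a ∧ a ≤ A) (s : Bool) :
    (1 + (1 - 2 * e)) ^ (K * as.length) - (N : ℝ) ^ 3 ≤
      (rep3 N (alt s as ++ dual (alt s as))).trace.re + 2 := by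
  have hN : 0 < N := h.N0
  have hu : ∀ l ∈ alt s as, l.1 < 2 := fun l hl => by
    rcases alt_pos _ _ l hl with rfl | rfl <;> norm_num
  obtain ⟨z, hz, hz0⟩ := exists_z hm hK
  set B := rep3 N (alt s as ++ dual (alt s as)) with hB
  have hroots : ∀ a ∈ B.charpoly.roots, (∃ r : ℝ, 0 < r ∧ a = r) ∨ ‖a‖ = 1 := by
    intro a ha
    obtain ⟨m', hm'⟩ := eig_of_root (good_rep3 _) ha
    exact eig_main hN hu hm'
  obtain ⟨M, hM1, hM2, hM3⟩ := exists_radius _ hroots
  have hq : (1 + (1 - 2 * e)) ^ (K * as.length) ≤ M := by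
    refine radius_le B (by linarith) hM2 (Phi N m K) z fun n => ?_
    rw [hB, pal_alt]
    exact Phi_ge h hm hK hz hz0 (fun b hb => by
      rw [List.mem_append, List.mem_reverse, or_self] at hb
      exact has b hb) (by simp; ring) s n
  have hcard : B.charpoly.roots.card = N ^ 3 := by
    rw [card_roots' B]
    simp only [I3, Fintype.card_prod, Fintype.card_fin]
    ring
  have htr : B.trace = (B.charpoly.roots.map fun a => a ^ 1).sum := by
    rw [Matrix.trace_eq_sum_roots_charpoly B]
    simp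
  rw [htr]
  rcases hM3 with h | h
  · have h3 := re_sum_ge _ hroots 1
    rw [hcard] at h3
    push_cast at h3
    linarith
  · obtain ⟨t, ht⟩ := Multiset.exists_cons_of_mem h
    have h3 := re_sum_ge t (fun a ha => hroots a (by rw [ht]; exact Multiset.mem_cons_of_mem ha)) 1
    have h4 : t.card + 1 = N ^ 3 := by rw [← hcard, ht, Multiset.card_cons]
    have h5 : (t.card : ℝ) + 1 = (N : ℝ) ^ 3 := by exact_mod_cast h4
    rw [ht, Multiset.map_cons, Multiset.sum_cons, Complex.add_re, pow_one, Complex.ofReal_re]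
    linarith

/-- the lower bound of the trace, for an explicit weight -/
theorem trace_alt' {K A : ℕ} (hA : 1 ≤ A) (hN : 0 < N) (hK : 60000 * (2 * A + 3) ^ 2 * K ≤ N)
    (hpar : (N + K) % 2 = 1) {as : List ℕ} (has : ∀ a ∈ as, 1 ≤ a ∧ a ≤ A) (s : Bool) :
    (19 / 10 : ℝ) ^ (K * as.length) - (N : ℝ) ^ 3 - 2 ≤
      (rep3 N (alt s as ++ dual (alt s as))).trace.re := by
  have h := par_of hA hN hK
  obtain ⟨m, hm⟩ : ∃ m, N + K = 2 * m + 1 := ⟨(N + K) / 2, by omega⟩
  have hKN := h.KN
  have h1 := trace_alt h (by omega : m < N) hm has s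
  have hAR : (1 : ℝ) ≤ A := by exact_mod_cast hA
  have h2 : (19 / 10 : ℝ) ≤ 1 + (1 - 2 * (1 / (8 * (2 * (A : ℝ) + 3)))) := by
    have h3 : 1 / (8 * (2 * (A : ℝ) + 3)) ≤ 1 / 40 :=
      one_div_le_one_div_of_le (by norm_num) (by linarith)
    linarith
  have h3 := pow_le_pow_left₀ (by norm_num : (0 : ℝ) ≤ 19 / 10) h2 (K * as.length)
  linarith

/-! ### the growth -/

/-- from the traces to the covers -/
theorem growth_of {u : List (ℕ × Bool)} (hu : ∀ l ∈ u, l.1 < 2) {c C D : ℝ} (hc : 0 < c)
    (hcC : c < C) (hD : 1 ≤ D)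
    (h : ∀ᶠ N : ℕ in atTop, Real.exp (C * N) / D - (N : ℝ) ^ 3 - 2 ≤
      ‖(rep3 N (u ++ dual u)).trace‖) {n : ℕ} (hn : 1 ≤ n) :
    ∀ᶠ N : ℕ in atTop, Real.exp (c * n * N) ≤ ‖(rep3 N (wpow (u ++ dual u) n)).trace‖ := by
  filter_upwards [h, cube_lt (sub_pos.2 hcC) (by positivity : (0 : ℝ) < 12 * D),
    cube_lt hc one_pos, eventually_ge_atTop 1] with N h1 h2 h3 hN1
  have hNR : (1 : ℝ) ≤ N := by exact_mod_cast hN1
  have hN3 : (1 : ℝ) ≤ (N : ℝ) ^ 3 := one_le_pow₀ hNR
  have hE1 : 1 ≤ Real.exp (c * N) := Real.one_le_exp (by positivity)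
  have hEE : Real.exp (C * N) = Real.exp ((C - c) * N) * Real.exp (c * N) := by
    rw [← Real.exp_add]; congr 1; ring
  have hD0 : 0 < D := by linarith
  obtain ⟨-, hb⟩ := trace_bounds (N := N) (by omega) hu (n := n) (by omega)
  set T := ‖(rep3 N (u ++ dual u)).trace‖ with hT
  set S := ‖(rep3 N (wpow (u ++ dual u) n)).trace‖ with hS
  have h9 : 12 * (N : ℝ) ^ 3 * Real.exp (c * N) ≤ Real.exp (C * N) / D := by
    rw [le_div_iff₀ hD0, hEE]
    have := mul_le_mul_of_nonneg_right h2 (Real.exp_pos (c * N)).le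
    linarith
  have h10 : 2 * Real.exp (c * N) ≤ T / (N : ℝ) ^ 3 := by
    rw [le_div_iff₀ (by positivity)]
    have h11 : (N : ℝ) ^ 3 ≤ (N : ℝ) ^ 3 * Real.exp (c * N) :=
      le_mul_of_one_le_right (by positivity) hE1
    nlinarith
  have h11 : 2 * Real.exp (c * N) ^ n ≤ (T / (N : ℝ) ^ 3) ^ n := by
    refine le_trans ?_ (pow_le_pow_left₀ (by positivity) h10 n)
    rw [mul_pow]
    refine mul_le_mul_of_nonneg_right ?_ (by positivity)
    calc (2 : ℝ) = 2 ^ 1 := (pow_one _).symm
      _ ≤ 2 ^ n := pow_le_pow_right₀ (by norm_num) hn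
  have h12 : (N : ℝ) ^ 3 ≤ Real.exp (c * N) ^ n := by
    calc (N : ℝ) ^ 3 ≤ Real.exp (c * N) := by linarith
      _ = Real.exp (c * N) ^ 1 := (pow_one _).symm
      _ ≤ _ := pow_le_pow_right₀ hE1 hn
  have e5 : Real.exp (c * n * N) = Real.exp (c * N) ^ n := by
    rw [← Real.exp_nat_mul]; congr 1; ring
  rw [e5]
  linarith

lemma log_19 : (63 / 100 : ℝ) < Real.log (19 / 10) := by
  rw [Real.lt_log_iff_exp_lt (by norm_num)]
  have h1 : Real.exp (63 / 100) = Real.exp (1 / 100) ^ 63 := by
    rw [← Real.exp_nat_mul]; norm_num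
  have h2 : Real.exp (1 / 100) ≤ 1 / (1 - 1 / 100) := by
    have := Real.add_one_le_exp (-(1 / 100 : ℝ))
    rw [Real.exp_neg] at this
    rw [le_div_iff₀ (by norm_num)]
    have h3 := Real.exp_pos (1 / 100)
    have h4 : (1 - 1 / 100 : ℝ) ≤ (Real.exp (1 / 100))⁻¹ := by linarith
    calc Real.exp (1 / 100) * (1 - 1 / 100) ≤ Real.exp (1 / 100) * (Real.exp (1 / 100))⁻¹ :=
          mul_le_mul_of_nonneg_left h4 h3.le
      _ = 1 := mul_inv_cancel₀ h3.ne'
  rw [h1]
  calc Real.exp (1 / 100) ^ 63 ≤ (1 / (1 - 1 / 100)) ^ 63 :=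
        pow_le_pow_left₀ (Real.exp_pos _).le h2 63
    _ < 19 / 10 := by norm_num

/-- **exponential growth** -/
theorem growth_alt {u : List (ℕ × Bool)} (hu : ∀ l ∈ u, l.1 < 2) {A : ℕ} (hA : 1 ≤ A)
    {as : List ℕ} (has : ∀ a ∈ as, 1 ≤ a ∧ a ≤ A) (has0 : as ≠ []) (s : Bool) {p r : ℤ}
    (hev : ∀ N : ℕ, ev (uA N) (uB N) u = (uA N * uB N * uA N) ^ p * ev (uA N) (uB N) (alt s as) *
      (uA N * uB N * uA N) ^ r) {n : ℕ} (hn : 1 ≤ n) :
    ∀ᶠ N : ℕ in atTop, Real.exp (as.length / (3000000 * (A : ℝ) ^ 2) * n * N) ≤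
      ‖(rep3 N (wpow (u ++ dual u) n)).trace‖ := by
  have hlen : 1 ≤ as.length := List.length_pos_iff.2 has0
  have hlenR : (1 : ℝ) ≤ as.length := by exact_mod_cast hlen
  have hAR : (1 : ℝ) ≤ A := by exact_mod_cast hA
  obtain ⟨q, hq⟩ : ∃ q : ℕ, q = 60000 * (2 * A + 3) ^ 2 := ⟨_, rfl⟩
  have hq0 : 0 < q := by rw [hq]; positivity
  have hqR : (0 : ℝ) < q := by exact_mod_cast hq0
  have hL := log_19
  refine growth_of hu (C := Real.log (19 / 10) * as.length / q)
    (D := Real.exp (2 * (Real.log (19 / 10) * as.length))) (by positivity) ?_ ?_ ?_ hn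
  · rw [div_lt_div_iff₀ (by positivity) hqR]
    have h1 : (q : ℝ) ≤ 60000 * 25 * (A : ℝ) ^ 2 := by
      rw [hq]; push_cast; nlinarith
    have h2 : (as.length : ℝ) * q ≤ as.length * (60000 * 25 * (A : ℝ) ^ 2) :=
      mul_le_mul_of_nonneg_left h1 (by linarith)
    have h3 : 63 / 100 * (as.length * (3000000 * (A : ℝ) ^ 2)) ≤
        Real.log (19 / 10) * (as.length * (3000000 * (A : ℝ) ^ 2)) :=
      mul_le_mul_of_nonneg_right hL.le (by positivity)
    have h4 : 0 < (as.length : ℝ) * (A : ℝ) ^ 2 := by positivity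
    linarith
  · refine Real.one_le_exp ?_
    have : 0 < Real.log (19 / 10) := by linarith
    positivity
  · filter_upwards [eventually_ge_atTop (q * 2)] with N hN
    have hN0 : 0 < N := by omega
    obtain ⟨K, hK1, hK2, hK3⟩ : ∃ K : ℕ, q * K ≤ N ∧ N ≤ q * (K + 2) ∧ (N + K) % 2 = 1 := by
      have h1 : q * (N / q) ≤ N := Nat.mul_div_le _ _
      have h2 : N < q * (N / q + 1) := Nat.lt_mul_div_succ N hq0
      have h3 : 2 ≤ N / q := by rw [Nat.le_div_iff_mul_le hq0]; linarith
      rcases Nat.mod_two_eq_zero_or_one (N + N / q) with h | h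
      · refine ⟨N / q - 1, ?_, ?_, by omega⟩
        · exact le_trans (Nat.mul_le_mul_left _ (by omega)) h1
        · refine le_trans h2.le (Nat.mul_le_mul_left _ (by omega))
      · refine ⟨N / q, h1, ?_, h⟩
        refine le_trans h2.le (Nat.mul_le_mul_left _ (by omega))
    have h4 := trace_alt' hA hN0 (by rw [← hq]; exact hK1) hK3 has s
    have hu2 : ∀ l ∈ alt s as, l.1 < 2 := fun l hl => by
      rcases alt_pos _ _ l hl with rfl | rfl <;> norm_num
    rw [trace_reduce hN0 hu hu2 (hev N)]
    refine le_trans ?_ (h4.trans ((le_abs_self _).trans (Complex.abs_re_le_norm _)))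
    have h5 : Real.exp (Real.log (19 / 10) * as.length / q * N) /
        Real.exp (2 * (Real.log (19 / 10) * as.length)) ≤ (19 / 10 : ℝ) ^ (K * as.length) := by
      rw [← Real.exp_sub]
      have e1 : (19 / 10 : ℝ) ^ (K * as.length) =
          Real.exp (Real.log (19 / 10) * ((K * as.length : ℕ) : ℝ)) := by
        rw [Real.exp_mul, Real.exp_log (by norm_num), Real.rpow_natCast]
      rw [e1]
      refine Real.exp_le_exp.2 ?_
      have h6 : (N : ℝ) / q ≤ K + 2 := by
        rw [div_le_iff₀ hqR]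
        have : (N : ℝ) ≤ q * (K + 2) := by exact_mod_cast hK2
        linarith
      have h7 : 0 ≤ Real.log (19 / 10) * as.length := by
        have : 0 < Real.log (19 / 10) := by linarith
        positivity
      have e2 : Real.log (19 / 10) * as.length / q * N = Real.log (19 / 10) * as.length * (N / q) := by
        ring
      rw [e2]
      push_cast
      nlinarith
    linarith

end Pool.Agent.H62.VC
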