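import Pool.Graph.R_pool_sql_team_seeded_843ab51a.V11115.VC.F
import Pool.Agent.H62.VC.Trace

/-!
Every 3-braid is conjugate to an even power of `Δ` times a positive word in `s_2`, `s_1⁻¹`, or to a
periodic braid.
-/

set_option autoImplicit false

namespace Pool.Agent.H62.VC

open Matrix Finset Filter Topology Pool.Agent.H550R3.Jones Pool.Agent.W715.VC
  Pool.Agent.V11115.VC

/-- `Δ^j w` is conjugate to `Δ^k X` in the braid group -/
def Cj (w : List (ℕ × Bool)) (j : ℤ) (X : List (ℕ × Bool)) (k : ℤ) : Prop :=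
  ∀ (G : Type) [Group G] (a b : G), a * b * a = b * a * b →
    ∃ g : G, (a * b * a) ^ j * ev a b w = g * ((a * b * a) ^ k * ev a b X) * g⁻¹

lemma Cj.trans {w X Y : List (ℕ × Bool)} {i j k : ℤ} (h1 : Cj w i X j) (h2 : Cj X j Y k) :
    Cj w i Y k := by
  intro G _ a b h
  obtain ⟨g1, e1⟩ := h1 G a b h
  obtain ⟨g2, e2⟩ := h2 G a b h
  refine ⟨g1 * g2, ?_⟩
  rw [e1, e2]
  group

lemma D_even' {G : Type} [Group G] {a b : G} (h : a * b * a = b * a * b) (i : ℤ) (g : G)
    (hg : ∃ w : List (ℕ × Bool), g = ev a b w) :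
    g * (a * b * a) ^ (2 * i) = (a * b * a) ^ (2 * i) * g := by
  obtain ⟨w, rfl⟩ := hg
  induction w with
  | nil => rw [ev_nil, one_mul, mul_one]
  | cons l w ih =>
    rw [ev_cons, mul_assoc, ih, ← mul_assoc, D_even h, mul_assoc]

/-- conjugating elements in the group generated by `a`, `b`: the version which commutes with `Δ²` -/
def Cw (w : List (ℕ × Bool)) (j : ℤ) (X : List (ℕ × Bool)) (k : ℤ) : Prop :=
  ∃ v : List (ℕ × Bool), ∀ (G : Type) [Group G] (a b : G), a * b * a = b * a * b →
    (a * b * a) ^ j * ev a b w = ev a b v * ((a * b * a) ^ k * ev a b X) * (ev a b v)⁻¹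

lemma ev_append {G : Type} [Group G] (a b : G) (u w : List (ℕ × Bool)) :
    ev a b (u ++ w) = ev a b u * ev a b w := by
  unfold ev; rw [List.map_append, List.prod_append]

lemma Cw.refl (w : List (ℕ × Bool)) (j : ℤ) : Cw w j w j :=
  ⟨[], fun G _ a b _ => by rw [ev_nil]; group⟩

lemma Cw.trans {w X Y : List (ℕ × Bool)} {i j k : ℤ} (h1 : Cw w i X j) (h2 : Cw X j Y k) :
    Cw w i Y k := by
  obtain ⟨v1, e1⟩ := h1
  obtain ⟨v2, e2⟩ := h2
  refine ⟨v1 ++ v2, fun G _ a b h => ?_⟩
  rw [e1 G a b h, e2 G a b h, ev_append]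
  group

lemma Cw.shift {w X : List (ℕ × Bool)} {j k : ℤ} (h1 : Cw w j X k) (i : ℤ) :
    Cw w (2 * i + j) X (2 * i + k) := by
  obtain ⟨v, e1⟩ := h1
  refine ⟨v, fun G _ a b h => ?_⟩
  have h2 := D_even' h i (ev a b v) ⟨v, rfl⟩
  rw [_root_.zpow_add, _root_.zpow_add, mul_assoc, e1 G a b h]
  have : (a * b * a) ^ (2 * i) * (ev a b v * ((a * b * a) ^ k * ev a b X) * (ev a b v)⁻¹) =
      ((a * b * a) ^ (2 * i) * ev a b v) * ((a * b * a) ^ k * ev a b X) * (ev a b v)⁻¹ := by group
  rw [this, ← h2]
  group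

/-- the three short words -/
def Short (w : List (ℕ × Bool)) : Prop := w = [] ∨ w = [(1, true)] ∨ w = [(0, false)]

/-- the odd case -/
lemma odd_case : ∀ (n : ℕ) (w : List (ℕ × Bool)), w.length = n → (∀ l ∈ w, Pos l) →
    (∃ (i : ℤ) (X : List (ℕ × Bool)), (∀ l ∈ X, Pos l) ∧ X.length ≤ w.length ∧ Cw w 1 X (2 * i)) ∨
    (∃ (i : ℤ) (X : List (ℕ × Bool)), Short X ∧ Cw w 1 X (2 * i + 1)) := by
  intro n
  induction n using Nat.strong_induction_on with
  | _ n ih =>
    intro w hn hw
    rcases Nat.lt_or_ge w.length 2 with h2 | h2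
    · right
      refine ⟨0, w, ?_, by rw [mul_zero, zero_add]; exact Cw.refl w 1⟩
      match w, h2 with
      | [], _ => exact Or.inl rfl
      | [l], _ =>
        rcases hw l (by simp) with rfl | rfl
        · exact Or.inr (Or.inl rfl)
        · exact Or.inr (Or.inr rfl)
    · -- `w = m :: w'' ++ [l]`
      obtain ⟨m, w1, rfl⟩ : ∃ m w1, w = m :: w1 := by
        cases w with
        | nil => simp at h2
        | cons m w1 => exact ⟨m, w1, rfl⟩
      have hw1 : w1 ≠ [] := by
        intro h; rw [h] at h2; simp at h2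
      obtain ⟨w2, l, rfl⟩ : ∃ w2 l, w1 = w2 ++ [l] :=
        ⟨w1.dropLast, w1.getLast hw1, (List.dropLast_append_getLast hw1).symm⟩
      have hm := hw m (by simp)
      have hl := hw l (by simp)
      have hw2 : ∀ l' ∈ w2, Pos l' := fun l' h => hw l' (by simp [h])
      simp only [List.length_cons, List.length_append, List.length_nil] at hn h2 ⊢
      have eb : ∀ (G : Type) [Group G] (a b : G), lt a b (1, true) = b := fun G _ a b => by simp [lt]
      have ea : ∀ (G : Type) [Group G] (a b : G), lt a b (0, false) = a⁻¹ :=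
        fun G _ a b => by simp [lt]
      -- the conjugate
      rcases hl with rfl | rfl <;> rcases hm with rfl | rfl
      · -- `P … P`
        left
        refine ⟨1, (0, false) :: w2, ?_, by simp, [(1, false)], fun G _ a b h => ?_⟩
        · intro l' hl'
          rcases List.mem_cons.1 hl' with rfl | h
          · exact Or.inr rfl
          · exact hw2 l' h
        · have e1 : ev a b [(1, false)] = b⁻¹ := by simp [ev, lt]
          rw [e1, ev_cons, ev_append, ev_cons, ev_nil, ev_cons, eb, ea]
          have h1 := D_b h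
          have h3 : a * b = (a * b * a) * a⁻¹ := by group
          have h4 : (a * b * a) ^ (2 * (1 : ℤ)) = (a * b * a) * (a * b * a) := by
            rw [mul_one, _root_.zpow_ofNat, pow_two]
          have h5 : b * (a * b * a) * b = (a * b * a) * (a * b * a) * a⁻¹ := by
            rw [h1, mul_assoc (a * b * a) a b]
            conv_lhs => rw [h3]
            group
          rw [_root_.zpow_one, h4, inv_inv]
          calc (a * b * a) * (b * (ev a b w2 * (b * 1))) =
              b⁻¹ * (b * (a * b * a) * b) * ev a b w2 * b := by group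
            _ = b⁻¹ * ((a * b * a) * (a * b * a) * a⁻¹) * ev a b w2 * b := by rw [h5]
            _ = _ := by group
      · -- `Q … P`
        have h6 := ih w2.length (by omega) w2 rfl hw2
        have h7 : Cw ((0, false) :: (w2 ++ [(1, true)])) 1 w2 1 := by
          refine ⟨[(1, false)], fun G _ a b h => ?_⟩
          have e1 : ev a b [(1, false)] = b⁻¹ := by simp [ev, lt]
          rw [e1, ev_cons, ev_append, ev_cons, ev_nil, eb, ea]
          have h1 := D_b h
          rw [_root_.zpow_one, inv_inv]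
          calc (a * b * a) * (a⁻¹ * (ev a b w2 * (b * 1))) =
              b⁻¹ * (b * (a * b * a)) * a⁻¹ * ev a b w2 * b := by group
            _ = b⁻¹ * ((a * b * a) * a) * a⁻¹ * ev a b w2 * b := by rw [h1]
            _ = _ := by group
        rcases h6 with ⟨i, X, h8, h9, h10⟩ | ⟨i, X, h8, h9⟩
        · exact Or.inl ⟨i, X, h8, by omega, h7.trans h10⟩
        · exact Or.inr ⟨i, X, h8, h7.trans h9⟩
      · -- `P … Q`
        have h6 := ih w2.length (by omega) w2 rfl hw2
        have h7 : Cw ((1, true) :: (w2 ++ [(0, false)])) 1 w2 1 := by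
          refine ⟨[(0, true)], fun G _ a b h => ?_⟩
          have e1 : ev a b [(0, true)] = a := by simp [ev, lt]
          rw [e1, ev_cons, ev_append, ev_cons, ev_nil, eb, ea]
          have h1 := D_ai h
          rw [_root_.zpow_one]
          calc (a * b * a) * (b * (ev a b w2 * (a⁻¹ * 1))) =
              a * (a⁻¹ * (a * b * a)) * b * ev a b w2 * a⁻¹ := by group
            _ = a * ((a * b * a) * b⁻¹) * b * ev a b w2 * a⁻¹ := by rw [h1]
            _ = _ := by group
        rcases h6 with ⟨i, X, h8, h9, h10⟩ | ⟨i, X, h8, h9⟩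
        · exact Or.inl ⟨i, X, h8, by omega, h7.trans h10⟩
        · exact Or.inr ⟨i, X, h8, h7.trans h9⟩
      · -- `Q … Q`
        left
        refine ⟨0, (1, true) :: w2, ?_, by simp, [(0, true)], fun G _ a b h => ?_⟩
        · intro l' hl'
          rcases List.mem_cons.1 hl' with rfl | h
          · exact Or.inl rfl
          · exact hw2 l' h
        · have e1 : ev a b [(0, true)] = a := by simp [ev, lt]
          rw [e1, ev_cons, ev_append, ev_cons, ev_nil, ev_cons, eb, ea]
          have h1 := D_ai h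
          have h5 : (a * b * a) * b⁻¹ * a⁻¹ = b := by rw [h]; group
          rw [_root_.zpow_one, mul_zero, _root_.zpow_zero, one_mul]
          calc (a * b * a) * (a⁻¹ * (ev a b w2 * (a⁻¹ * 1))) =
              a * (a⁻¹ * (a * b * a)) * a⁻¹ * ev a b w2 * a⁻¹ := by group
            _ = a * ((a * b * a) * b⁻¹) * a⁻¹ * ev a b w2 * a⁻¹ := by rw [h1]
            _ = a * ((a * b * a) * b⁻¹ * a⁻¹) * ev a b w2 * a⁻¹ := by group
            _ = a * b * ev a b w2 * a⁻¹ := by rw [h5]
            _ = _ := by group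

/-- the word `Δ^i` -/
lemma exists_word_D (i : ℤ) : ∃ v : List (ℕ × Bool), ∀ (G : Type) [Group G] (a b : G),
    ev a b v = (a * b * a) ^ i := by
  have hn : ∀ n : ℕ, ∃ v : List (ℕ × Bool), ∀ (G : Type) [Group G] (a b : G),
      ev a b v = (a * b * a) ^ n := by
    intro n
    induction n with
    | zero => exact ⟨[], fun G _ a b => by rw [ev_nil, pow_zero]⟩
    | succ n ih =>
      obtain ⟨v, hv⟩ := ih
      refine ⟨v ++ [(0, true), (1, true), (0, true)], fun G _ a b => ?_⟩
      rw [ev_append, hv, pow_succ]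
      congr 1
      simp [ev, lt, mul_assoc]
  have hn' : ∀ n : ℕ, ∃ v : List (ℕ × Bool), ∀ (G : Type) [Group G] (a b : G),
      ev a b v = ((a * b * a)⁻¹) ^ n := by
    intro n
    induction n with
    | zero => exact ⟨[], fun G _ a b => by rw [ev_nil, pow_zero]⟩
    | succ n ih =>
      obtain ⟨v, hv⟩ := ih
      refine ⟨v ++ [(0, false), (1, false), (0, false)], fun G _ a b => ?_⟩
      rw [ev_append, hv, pow_succ]
      congr 1
      simp [ev, lt, mul_assoc]
  rcases Int.eq_nat_or_neg i with ⟨n, rfl | rfl⟩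
  · obtain ⟨v, hv⟩ := hn n
    exact ⟨v, fun G _ a b => by rw [hv, zpow_natCast]⟩
  · obtain ⟨v, hv⟩ := hn' n
    exact ⟨v, fun G _ a b => by rw [hv, _root_.zpow_neg, zpow_natCast, inv_pow]⟩

/-- **conjugation to a positive word** -/
theorem conj_reduce (u : List (ℕ × Bool)) (hu : ∀ l ∈ u, l.1 < 2) :
    (∃ (i : ℤ) (X : List (ℕ × Bool)), (∀ l ∈ X, Pos l) ∧ X.length ≤ u.length ∧
      Cw u 0 X (2 * i)) ∨
    (∃ (i : ℤ) (X : List (ℕ × Bool)), Short X ∧ Cw u 0 X (2 * i + 1)) := by
  obtain ⟨p, r, w, hw, hlen, hG⟩ := reduce u hu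
  have h1 : Cw u 0 w (p + r) := by
    obtain ⟨v, hv⟩ := exists_word_D (-r)
    refine ⟨v, fun G _ a b h => ?_⟩
    rw [hv, hG G a b h, _root_.zpow_zero, one_mul, _root_.zpow_neg, inv_inv, _root_.zpow_add]
    group
  rcases Int.even_or_odd' (p + r) with ⟨i, hi | hi⟩
  · left
    rw [hi] at h1
    exact ⟨i, w, hw, hlen, h1⟩
  · rw [hi] at h1
    rcases odd_case w.length w rfl hw with ⟨j, X, h2, h3, h4⟩ | ⟨j, X, h2, h3⟩
    · left
      refine ⟨i + j, X, h2, by omega, h1.trans ?_⟩
      have := h4.shift i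
      rw [← mul_add] at this
      exact this
    · right
      refine ⟨i + j, X, h2, h1.trans ?_⟩
      have h5 := h3.shift i
      have e : 2 * i + (2 * j + 1) = 2 * (i + j) + 1 := by ring
      rw [e] at h5
      exact h5

/-! ### the trace in `SL(2, ℤ)` -/

lemma mat_D_two : (mA * mB * mA) ^ (2 : ℤ) = -1 := by
  ext1
  have : (mA * mB * mA) ^ (2 : ℤ) = (mA * mB * mA) * (mA * mB * mA) := by
    rw [_root_.zpow_ofNat, pow_two]
  rw [this]
  decide

lemma mat_D_even (i : ℤ) : (mA * mB * mA) ^ (2 * i) = 1 ∨ (mA * mB * mA) ^ (2 * i) = -1 := by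
  rw [_root_.zpow_mul, mat_D_two]
  rcases Int.even_or_odd i with h | h
  · left; exact h.neg_one_zpow
  · right; exact h.neg_one_zpow

lemma trace_conj {w X : List (ℕ × Bool)} {j k : ℤ} (h : Cw w j X k) :
    ((((mA * mB * mA) ^ j * ev mA mB w : (Matrix (Fin 2) (Fin 2) ℤ)ˣ)) :
      Matrix (Fin 2) (Fin 2) ℤ).trace =
    ((((mA * mB * mA) ^ k * ev mA mB X : (Matrix (Fin 2) (Fin 2) ℤ)ˣ)) :
      Matrix (Fin 2) (Fin 2) ℤ).trace := by
  obtain ⟨v, hv⟩ := h
  rw [hv _ mA mB (by decide), Units.val_mul, Matrix.trace_mul_comm, ← Units.val_mul,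
    ← mul_assoc, inv_mul_cancel, one_mul]

lemma abs_trace_even {u X : List (ℕ × Bool)} {i : ℤ} (h : Cw u 0 X (2 * i)) :
    |(mat u).trace| = |(mat X).trace| := by
  have h1 := trace_conj h
  rw [_root_.zpow_zero, one_mul, ev_mat] at h1
  rw [h1]
  rcases mat_D_even i with h2 | h2
  · rw [h2, one_mul, ev_mat]
  · rw [h2, neg_mul, one_mul, Units.val_neg, ev_mat, Matrix.trace_neg, abs_neg]

lemma abs_trace_odd {u X : List (ℕ × Bool)} {i : ℤ} (hX : Short X) (h : Cw u 0 X (2 * i + 1)) :
    |(mat u).trace| ≤ 2 := by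
  have h1 := trace_conj h
  rw [_root_.zpow_zero, one_mul, ev_mat] at h1
  have h3 : |((((mA * mB * mA) * ev mA mB X : (Matrix (Fin 2) (Fin 2) ℤ)ˣ)) :
      Matrix (Fin 2) (Fin 2) ℤ).trace| ≤ 2 := by
    rcases hX with rfl | rfl | rfl <;> decide
  rw [h1, _root_.zpow_add, _root_.zpow_one]
  rcases mat_D_even i with h2 | h2
  · rw [h2, one_mul]; exact h3
  · rw [h2, neg_mul, neg_mul, one_mul, Units.val_neg, Matrix.trace_neg, abs_neg]; exact h3

lemma trace_rep (b : ℕ) (s : Bool) : (mat (List.replicate b (lett s))).trace = 2 := by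
  have h1 : ∀ b : ℕ, mat (List.replicate b (lett true)) = !![1, 0; -(b : ℤ), 1] := by
    intro b
    induction b with
    | zero => simp [mat, Matrix.one_fin_two]
    | succ b ih =>
      have : mat (List.replicate (b + 1) (lett true)) =
          !![1, 0; -1, 1] * mat (List.replicate b (lett true)) := by
        simp [mat, lett, List.replicate_succ]
      rw [this, ih, Matrix.mul_fin_two]
      push_cast
      congr 1
      simp
  have h2 : ∀ b : ℕ, mat (List.replicate b (lett false)) = !![1, -(b : ℤ); 0, 1] := by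
    intro b
    induction b with
    | zero => simp [mat, Matrix.one_fin_two]
    | succ b ih =>
      have : mat (List.replicate (b + 1) (lett false)) =
          !![1, -1; 0, 1] * mat (List.replicate b (lett false)) := by
        simp [mat, lett, List.replicate_succ]
      rw [this, ih, Matrix.mul_fin_two]
      push_cast
      congr 1
      simp
      ring
  cases s
  · rw [h2, Matrix.trace_fin_two]; simp
  · rw [h1, Matrix.trace_fin_two]; simp

/-- the conjugate with an even number of syllables -/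
lemma even_alt : ∀ (bs : List ℕ) (s : Bool), 2 ≤ bs.length →
    (∀ b ∈ bs, 1 ≤ b) → ∃ cs : List ℕ, (∀ b ∈ cs, 1 ≤ b ∧ b ≤ bs.sum) ∧
      (∃ r, 1 ≤ r ∧ cs.length = 2 * r) ∧ Cw (alt s bs) 0 (alt s cs) 0 := by
  intro bs s h2 h1
  have hle : ∀ b ∈ bs, b ≤ bs.sum := fun b hb => List.single_le_sum (by simp) b hb
  rcases Nat.even_or_odd' bs.length with ⟨r, hr | hr⟩
  · exact ⟨bs, fun b hb => ⟨h1 b hb, hle b hb⟩, ⟨r, by omega, hr⟩, Cw.refl _ _⟩
  · have hne : bs ≠ [] := by intro h; rw [h] at h2; simp at h2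
    obtain ⟨b1, bs1, rfl⟩ : ∃ b1 bs1, bs = b1 :: bs1 := by
      cases bs with
      | nil => exact absurd rfl hne
      | cons b bs => exact ⟨b, bs, rfl⟩
    have hne1 : bs1 ≠ [] := by intro h; rw [h] at h2; simp at h2
    obtain ⟨ds, bk, rfl⟩ : ∃ ds bk, bs1 = ds ++ [bk] :=
      ⟨bs1.dropLast, bs1.getLast hne1, (List.dropLast_append_getLast hne1).symm⟩
    simp only [List.length_cons, List.length_append, List.length_nil] at hr h2
    refine ⟨(bk + b1) :: ds, ?_, ⟨r, by omega, ?_⟩, List.replicate bk (dl (dl (lett s))) |>.map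
      (fun l => (l.1, !l.2)), fun G _ a b h => ?_⟩
    · intro b hb
      simp only [List.sum_cons, List.sum_append, List.sum_nil]
      rcases List.mem_cons.1 hb with rfl | hb
      · have := h1 b1 (by simp)
        constructor <;> omega
      · have h3 := h1 b (by simp [hb])
        have h4 : b ≤ ds.sum := List.single_le_sum (by simp) b hb
        constructor <;> omega
    · simp only [List.length_cons]; omega
    · have hsg : sg ds.length (!s) = s := by
        unfold sg
        rw [if_neg (by omega), Bool.not_not]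
      have e1 : alt s (b1 :: (ds ++ [bk])) =
          List.replicate b1 (lett s) ++ (alt (!s) ds ++ List.replicate bk (lett s)) := by
        rw [alt, alt_append, hsg]
        simp [alt]
      have e2 : alt s ((bk + b1) :: ds) =
          List.replicate bk (lett s) ++ (List.replicate b1 (lett s) ++ alt (!s) ds) := by
        rw [alt, List.replicate_add, List.append_assoc]
      have e3 : ∀ n : ℕ, ev a b ((List.replicate n (dl (dl (lett s)))).map fun l => (l.1, !l.2)) =
          (ev a b (List.replicate n (lett s)))⁻¹ := by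
        intro n
        rw [List.map_replicate]
        unfold ev
        rw [List.map_replicate, List.map_replicate, List.prod_replicate, List.prod_replicate,
          ← inv_pow]
        congr 1
        cases s <;> simp [lt, lett, dl]
      rw [e1, e2, e3, ev_append, ev_append, ev_append, ev_append]
      group

/-- **pseudo-Anosov 3-braids**: a braid with hyperbolic image is conjugate to an even power of `Δ` times
an alternating word with an even number of syllables -/
theorem pA_conj (u : List (ℕ × Bool)) (hu : ∀ l ∈ u, l.1 < 2) (htr : 2 < |(mat u).trace|) :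
    ∃ (i : ℤ) (s : Bool) (bs : List ℕ) (r : ℕ), (∀ b ∈ bs, 1 ≤ b ∧ b ≤ u.length) ∧ 1 ≤ r ∧
      bs.length = 2 * r ∧ Cw u 0 (alt s bs) (2 * i) := by
  rcases conj_reduce u hu with ⟨i, X, h1, h2, h3⟩ | ⟨i, X, h1, h2⟩
  · rw [abs_trace_even h3] at htr
    have hX : X ≠ [] := by
      intro h
      rw [h] at htr
      exact absurd htr (by decide)
    obtain ⟨s, as, h4, h5, h6⟩ := exists_alt X h1 hX
    have h7 : 2 ≤ as.length := by
      by_contra hcon
      have h8 : as.length = 1 := by
        have := List.length_pos_iff.2 h5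
        omega
      obtain ⟨b, rfl⟩ := List.length_eq_one_iff.1 h8
      have h9 : alt s [b] = List.replicate b (lett s) := by simp [alt]
      rw [h4, h9, trace_rep] at htr
      norm_num at htr
    obtain ⟨cs, h8, ⟨r, h9, h10⟩, h11⟩ := even_alt as s h7 fun b hb => (h6 b hb).1
    have hsum : ∀ (as : List ℕ) (s : Bool), as.sum = (alt s as).length := by
      intro as
      induction as with
      | nil => intro s; rfl
      | cons a as ih => intro s; rw [alt, List.length_append, List.length_replicate, List.sum_cons,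
          ← ih]
    refine ⟨i, s, cs, r, fun b hb => ⟨(h8 b hb).1, ?_⟩, h9, h10, ?_⟩
    · have := (h8 b hb).2
      rw [hsum as s, ← h4] at this
      omega
    · have h12 := h11.shift i
      rw [add_zero, ← h4] at h12
      exact h3.trans h12
  · exact absurd (abs_trace_odd h1 h2) (by omega)

end Pool.Agent.H62.VC
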