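import Pool.Agent.H62.VC.Conj
import Pool.Graph.R_pool_sql_team_seeded_843ab51a.V11115.VC.P4

/-!
The spectral radius of all pseudo-Anosov braids, and power sums.
-/

set_option autoImplicit false

namespace Pool.Agent.H62.VC

open Matrix Finset Filter Topology Pool.Agent.H550R3.Jones Pool.Agent.W715.VC
  Pool.Agent.V11115.VC

variable {N : ℕ}

attribute [local instance] Matrix.linftyOpNormedRing Matrix.linftyOpNormedAlgebra

/-! ### the powers of `Δ` are isometries -/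

/-- the unit `Δ` -/
noncomputable def uD (N : ℕ) : (M3 N)ˣ := uA N * uB N * uA N

lemma uD_val : ((uD N : (M3 N)ˣ) : M3 N) = rep3 N [(0, true), (1, true), (0, true)] := by
  have h := ev_rep3 (N := N) (u := [(0, true), (1, true), (0, true)]) (by simp)
  rw [← h]
  congr 1
  simp [ev, lt, uD, mul_assoc]

lemma uD_inv_val : (((uD N)⁻¹ : (M3 N)ˣ) : M3 N) = rep3 N [(0, false), (1, false), (0, false)] := by
  have h := ev_rep3 (N := N) (u := [(0, false), (1, false), (0, false)]) (by simp)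
  rw [← h]
  congr 1
  simp [ev, lt, uD, mul_assoc]

lemma good_uD_zpow (i : ℤ) : Good (((uD N) ^ i : (M3 N)ˣ) : M3 N) := by
  have h1 : Good ((uD N : (M3 N)ˣ) : M3 N) := by rw [uD_val]; exact good_rep3 _
  have h2 : Good (((uD N)⁻¹ : (M3 N)ˣ) : M3 N) := by rw [uD_inv_val]; exact good_rep3 _
  have hn : ∀ (U : (M3 N)ˣ), Good (U : M3 N) → ∀ n : ℕ, Good ((U ^ n : (M3 N)ˣ) : M3 N) := by
    intro U hU n
    induction n with
    | zero => rw [pow_zero, Units.val_one]; exact Good.one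
    | succ n ih => rw [pow_succ, Units.val_mul]; exact ih.mul hU
  rcases Int.eq_nat_or_neg i with ⟨n, rfl | rfl⟩
  · rw [zpow_natCast]; exact hn _ h1 n
  · rw [_root_.zpow_neg, zpow_natCast, ← inv_pow]; exact hn _ h2 n

lemma theta_uD (hN : 0 < N) : theta N (uD N) = uD N := by
  unfold uD
  rw [map_mul, map_mul, theta_A hN, theta_B hN, braid_AB]

lemma hadj_of_theta {U : (M3 N)ˣ} (h : theta N U = U) :
    hadj (U : M3 N) = ((U⁻¹ : (M3 N)ˣ) : M3 N) := by
  have h1 : theta N U⁻¹ = U⁻¹ := by rw [map_inv, h]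
  have h2 : ((theta N U⁻¹ : (M3 N)ˣ) : M3 N) = hadj ((U⁻¹⁻¹ : (M3 N)ˣ) : M3 N) := rfl
  rw [h1, inv_inv] at h2
  exact h2.symm

lemma SS1_uD {m : ℕ} (hm : m < N) (h2 : N ≤ 2 * m + 1) (i : ℤ) {x : I3 N → ℂ} (hx : InK m x) :
    SS1 N m ((((uD N) ^ i : (M3 N)ˣ) : M3 N) *ᵥ x) = SS1 N m x := by
  have hN : 0 < N := by omega
  have hth : theta N ((uD N) ^ i) = (uD N) ^ i := by rw [map_zpow, theta_uD hN]
  have hadj1 := hadj_of_theta hth
  have hg := good_uD_zpow (N := N) i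
  have hg' : Good ((((uD N) ^ i)⁻¹ : (M3 N)ˣ) : M3 N) := by
    rw [← _root_.zpow_neg]; exact good_uD_zpow _
  have h3 := S2_adj hm h2 hadj1 hg hg' hx (hg.InK hx)
  rw [Matrix.mulVec_mulVec, ← Units.val_mul, inv_mul_cancel, Units.val_one, one_mulVec, S2_self,
    S2_self] at h3
  exact_mod_cast h3

/-! ### the functional is bounded by the form -/

lemma Phi_le {m K : ℕ} (hm : m < N) (hK : N + K = 2 * m + 1) :
    ∃ C : ℝ, 0 < C ∧ ∀ x : I3 N → ℂ, ‖Phi N m K x‖ ≤ C * Real.sqrt (SS1 N m x) := by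
  have hpos : ∀ d, d ≤ K → 0 < DD N m (m - d) := fun d hd => by
    rw [DD_eq hm hK hd]; exact qb_pos (by omega) (by omega)
  refine ⟨1 + ∑ d ∈ range (K + 1), ‖ec (List.replicate K (1 : ℂ)) d‖ / Real.sqrt (DD N m (m - d)),
    ?_, fun x => ?_⟩
  · have : 0 ≤ ∑ d ∈ range (K + 1), ‖ec (List.replicate K (1 : ℂ)) d‖ /
        Real.sqrt (DD N m (m - d)) := sum_nonneg fun d _ => by positivity
    linarith
  · have h1 : Phi N m K x = ∑ d ∈ range (K + 1), ec (List.replicate K (1 : ℂ)) d * Yc N m x d := by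
      change Ev (List.replicate K 1) (Yc N m x) = _
      rw [Ev_eq, List.length_replicate]
    have h2 : ‖Phi N m K x‖ ≤ (∑ d ∈ range (K + 1), ‖ec (List.replicate K (1 : ℂ)) d‖ /
        Real.sqrt (DD N m (m - d))) * Real.sqrt (SS1 N m x) := by
      rw [h1, sum_mul]
      refine (_root_.norm_sum_le _ _).trans (sum_le_sum fun d hd => ?_)
      rw [mem_range] at hd
      have hd' : d ≤ K := by omega
      rw [norm_mul, div_mul_eq_mul_div, mul_div_assoc]
      refine mul_le_mul_of_nonneg_left ?_ (norm_nonneg _)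
      have h3 : ‖Yc N m x d‖ = ‖LL N m (m - d) x‖ := by
        unfold Yc
        rw [norm_mul, norm_pow, norm_neg, norm_pow, norm_rt', one_pow, one_pow, one_mul]
      have h4 := SS1_term (i := m - d) hm (by omega) x
      have h5 := hpos d hd'
      rw [h3, le_div_iff₀ (Real.sqrt_pos.2 h5)]
      refine Real.le_sqrt_of_sq_le ?_
      rw [mul_pow, Real.sq_sqrt h5.le]
      linarith
    have h3 : 0 ≤ Real.sqrt (SS1 N m x) := Real.sqrt_nonneg _
    linarith

lemma SS1_le {m : ℕ} (hm : m < N) (h2 : N ≤ 2 * m + 1) :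
    ∃ C : ℝ, 0 < C ∧ ∀ x : I3 N → ℂ, InK m x → Real.sqrt (SS1 N m x) ≤ C * ‖x‖ := by
  obtain ⟨c, hc0, hc⟩ := semi' hm h2
  have hc0' : 0 < |c| := abs_pos.2 hc0
  set D : ℝ := (Fintype.card (I3 N) + 1) / |c| with hD
  have hD0 : 0 < D := by positivity
  refine ⟨Real.sqrt D, Real.sqrt_pos.2 hD0, fun x hx => ?_⟩
  have h1 : SS1 N m x * |c| ≤ (Fintype.card (I3 N) + 1) * (‖x‖ * ‖x‖) := by
    have h3 := hc x x hx hx
    rw [S2_self] at h3
    have h4 : ‖Hf x x‖ = |c| * SS1 N m x := by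
      rw [h3, norm_mul, Complex.norm_real, Complex.norm_real, Real.norm_eq_abs,
        Real.norm_of_nonneg (SS1_nonneg hm x)]
    have h5 := Hf_bound x x
    have h6 : ∑ p, ‖x p‖ ≤ Fintype.card (I3 N) * ‖x‖ := by
      have : ∑ p : I3 N, ‖x p‖ ≤ ∑ _p : I3 N, ‖x‖ := sum_le_sum fun p _ => norm_le_pi_norm x p
      refine this.trans (le_of_eq ?_)
      rw [sum_const, nsmul_eq_mul, Finset.card_univ]
    rw [h4] at h5
    have h7 := mul_le_mul_of_nonneg_right h6 (norm_nonneg x)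
    nlinarith [mul_nonneg (norm_nonneg x) (norm_nonneg x)]
  have h2' : SS1 N m x ≤ D * (‖x‖ * ‖x‖) := by
    rw [hD, div_mul_eq_mul_div, le_div_iff₀ hc0']
    exact h1
  refine Real.sqrt_le_iff.2 ⟨by positivity, ?_⟩
  rw [mul_pow, Real.sq_sqrt hD0.le, pow_two]
  exact h2'

/-- the spectral radius -/
lemma radius_le' {ι : Type} [Fintype ι] [DecidableEq ι] (B : Matrix ι ι ℂ) {M : ℝ} (hM0 : 0 ≤ M)
    (hM : ∀ a ∈ B.charpoly.roots, ‖a‖ ≤ M) (z : ι → ℂ) {ρ C : ℝ} (hC : 0 < C)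
    (h : ∀ n : ℕ, ρ ^ n ≤ C * ‖B ^ n *ᵥ z‖) : ρ ≤ M := by
  by_contra hcon
  rw [not_le] at hcon
  obtain ⟨M', h1, h2⟩ := exists_between hcon
  have hM' : 0 < M' := by linarith
  have h3 := pow_bound B hM0 hM h1
  have h4 : ∀ᶠ n : ℕ in atTop, ρ ^ n ≤ C * ‖z‖ * M' ^ n := by
    filter_upwards [h3] with n hn
    refine (h n).trans ?_
    have h6 : ‖B ^ n *ᵥ z‖ ≤ M' ^ n * ‖z‖ :=
      (Matrix.linfty_opNorm_mulVec _ _).trans (mul_le_mul_of_nonneg_right hn (norm_nonneg _))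
    refine (mul_le_mul_of_nonneg_left h6 hC.le).trans (le_of_eq ?_)
    ring
  have h5 : Tendsto (fun n : ℕ => (ρ / M') ^ n) atTop atTop :=
    tendsto_pow_atTop_atTop_of_one_lt ((one_lt_div hM').2 h2)
  obtain ⟨n, hn1, hn2⟩ := ((h5.eventually_gt_atTop (C * ‖z‖)).and h4).exists
  rw [div_pow, lt_div_iff₀ (by positivity)] at hn1
  linarith

/-- **the spectral radius of `Δ^j w`** -/
theorem radius_alt {m K A : ℕ} {e : ℝ} (h : Par N K A e) (hm : m < N) (hK : N + K = 2 * m + 1)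
    {bs : List ℕ} (hbs : ∀ b ∈ bs, 1 ≤ b ∧ b ≤ A) {r : ℕ} (hr : bs.length = 2 * r) (s : Bool) (i : ℤ)
    {C : M3 N} (hC : C = (((uD N) ^ (2 * i) : (M3 N)ˣ) : M3 N) * rep3 N (alt s bs)) {M : ℝ}
    (hM0 : 0 ≤ M) (hM : ∀ a ∈ C.charpoly.roots, ‖a‖ ≤ M) :
    (1 + (1 - 2 * e)) ^ (K * r) ≤ M := by
  obtain ⟨z, hz, hz0⟩ := exists_z hm hK
  obtain ⟨C1, hC1, h1⟩ := Phi_le hm hK
  obtain ⟨C2, hC2, h2⟩ := SS1_le hm (by omega : N ≤ 2 * m + 1)
  have hlt : ∀ l ∈ alt s bs, l.1 < 2 := fun l hl => by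
    rcases alt_pos _ _ l hl with rfl | rfl <;> norm_num
  set R := rep3 N (alt s bs) with hR
  have hcomm : Commute ((((uD N) ^ (2 * i) : (M3 N)ˣ) : M3 N)) R := by
    have h3 := D_even' (braid_AB (N := N)) i (ev (uA N) (uB N) (alt s bs)) ⟨_, rfl⟩
    have h4 := congrArg (Units.val) h3
    rw [Units.val_mul, Units.val_mul, ev_rep3 hlt] at h4
    exact h4.symm
  have hpow : ∀ n : ℕ, C ^ n = (((uD N) ^ (2 * i * n) : (M3 N)ˣ) : M3 N) * R ^ n := by
    intro n
    rw [hC, hcomm.mul_pow]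
    congr 1
    rw [_root_.zpow_mul (uD N) (2 * i) (n : ℤ), zpow_natCast, Units.val_pow_eq_pow_val]
  refine radius_le' C hM0 hM z (C := C1 * C2) (by positivity) fun n => ?_
  have h5 := Phi_ge h hm hK hz hz0 hbs hr s n
  have hRn : InK m (R ^ n *ᵥ z) := by
    rw [hR, ← rep3_wpow]; exact (good_rep3 _).InK hz
  have hin : InK m (C ^ n *ᵥ z) := by
    rw [hpow, ← Matrix.mulVec_mulVec]
    exact (good_uD_zpow _).InK hRn
  have h6 : SS1 N m (C ^ n *ᵥ z) = SS1 N m (R ^ n *ᵥ z) := by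
    rw [hpow, ← Matrix.mulVec_mulVec]
    exact SS1_uD hm (by omega) _ hRn
  calc ((1 + (1 - 2 * e)) ^ (K * r)) ^ n ≤ ‖Phi N m K (R ^ n *ᵥ z)‖ := h5
    _ ≤ C1 * Real.sqrt (SS1 N m (R ^ n *ᵥ z)) := h1 _
    _ = C1 * Real.sqrt (SS1 N m (C ^ n *ᵥ z)) := by rw [h6]
    _ ≤ C1 * (C2 * ‖C ^ n *ᵥ z‖) := mul_le_mul_of_nonneg_left (h2 _ hin) hC1.le
    _ = _ := by ring

/-! ### power sums -/

/-- the property holds for a set of numbers with bounded gaps -/
def Syn (P : ℕ → Prop) : Prop := ∃ J : ℕ, ∀ m : ℕ, ∃ n : ℕ, m ≤ n ∧ n ≤ m + J ∧ P n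

lemma Syn.mono {P Q : ℕ → Prop} (h : Syn P) (hPQ : ∀ n, 1 ≤ n → P n → Q n) : Syn Q := by
  obtain ⟨J, hJ⟩ := h
  refine ⟨J + 1, fun m => ?_⟩
  obtain ⟨n, h1, h2, h3⟩ := hJ (m + 1)
  exact ⟨n, by omega, by omega, hPQ n (by omega) h3⟩

/-- recurrence on a torus -/
lemma recur (s : Finset ℂ) : Syn fun n => ∀ a ∈ s, ‖a‖ ^ n / 2 ≤ (a ^ n).re := by
  classical
  set th : ℂ → ℂ := fun a => if a = 0 then 1 else a / ‖a‖ with hth
  have hth1 : ∀ a, ‖th a‖ = 1 := by
    intro a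
    simp only [hth]
    split_ifs with h
    · exact norm_one
    · rw [norm_div, Complex.norm_real, norm_norm, div_self (norm_ne_zero_iff.2 h)]
  set F : ℕ → (s → ℂ) := fun n a => th a ^ n with hF
  have hFb : Set.range F ⊆ Metric.closedBall (0 : s → ℂ) 1 := by
    rintro _ ⟨n, rfl⟩
    rw [mem_closedBall_zero_iff, pi_norm_le_iff_of_nonneg zero_le_one]
    intro a
    simp only [hF]
    rw [norm_pow, hth1, one_pow]
  have htb : TotallyBounded (Set.range F) :=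
    (isCompact_closedBall (0 : s → ℂ) 1).totallyBounded.subset hFb
  obtain ⟨t, hts, htf, hcov⟩ := htb.exists_subset (Metric.dist_mem_uniformity
    (by norm_num : (0 : ℝ) < 1 / 2))
  -- the largest index
  have hidx : ∀ y ∈ t, ∃ j : ℕ, F j = y := fun y hy => hts hy
  choose! ix hix using hidx
  obtain ⟨J, hJ⟩ : ∃ J : ℕ, ∀ y ∈ t, ix y ≤ J := by
    obtain ⟨J, hJ⟩ := (htf.image ix).bddAbove
    exact ⟨J, fun y hy => hJ (Set.mem_image_of_mem _ hy)⟩
  refine ⟨J, fun m => ?_⟩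
  have h1 := hcov (Set.mem_range_self (m + J))
  simp only [Set.mem_iUnion, Set.mem_setOf_eq] at h1
  obtain ⟨y, hy, h1⟩ := h1
  have h2 : dist (F (m + J)) (F (ix y)) < 1 / 2 := by rw [hix y hy]; exact h1
  have hj := hJ y hy
  set j := ix y with hjdef
  refine ⟨m + J - j, by omega, by omega, fun a ha => ?_⟩
  have h2' : ‖th a ^ (m + J) - th a ^ j‖ < 1 / 2 := by
    have h3 := dist_le_pi_dist (F (m + J)) (F j) ⟨a, ha⟩
    have h4 := lt_of_le_of_lt h3 h2
    rw [dist_eq_norm] at h4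
    exact h4
  have h3 : ‖th a ^ (m + J - j) - 1‖ < 1 / 2 := by
    have e1 : th a ^ (m + J) - th a ^ j = th a ^ j * (th a ^ (m + J - j) - 1) := by
      rw [mul_sub, ← pow_add, mul_one]
      congr 2
      omega
    rw [e1, norm_mul, norm_pow, hth1, one_pow, one_mul] at h2'
    exact h2'
  have h4 : 1 / 2 ≤ (th a ^ (m + J - j)).re := by
    have h5 := Complex.abs_re_le_norm (th a ^ (m + J - j) - 1)
    rw [Complex.sub_re, Complex.one_re] at h5
    have h6 := (abs_le.1 (h5.trans h3.le)).1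
    linarith
  have h5 : a ^ (m + J - j) = ((‖a‖ ^ (m + J - j) : ℝ) : ℂ) * th a ^ (m + J - j) := by
    have h6 : a = (‖a‖ : ℂ) * th a := by
      simp only [hth]
      split_ifs with h
      · rw [h]; simp
      · have : (‖a‖ : ℂ) ≠ 0 := by exact_mod_cast norm_ne_zero_iff.2 h
        field_simp
    conv_lhs => rw [h6]
    rw [mul_pow]
    push_cast
    rfl
  rw [h5, Complex.re_ofReal_mul]
  have h6 : 0 ≤ ‖a‖ ^ (m + J - j) := by positivity
  nlinarith

/-- the traces of the powers are large for a set of powers with bounded gaps -/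
lemma trace_freq {ι : Type} [Fintype ι] [DecidableEq ι] (B : Matrix ι ι ℂ) {a : ℂ}
    (ha : a ∈ B.charpoly.roots) : Syn fun n => ‖a‖ ^ n / 2 ≤ ‖(B ^ n).trace‖ := by
  classical
  refine (recur B.charpoly.roots.toFinset).mono ?_
  intro n hn1 hn
  rw [trace_pow B (by omega)]
  refine le_trans ?_ ((le_abs_self _).trans (Complex.abs_re_le_norm _))
  obtain ⟨t, ht⟩ := Multiset.exists_cons_of_mem ha
  have h1 : ∀ t' : Multiset ℂ, (∀ b ∈ t', b ∈ B.charpoly.roots) →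
      0 ≤ ((t'.map fun b => b ^ n).sum).re := by
    intro t'
    induction t' using Multiset.induction_on with
    | empty => intro _; simp
    | cons b t' ih =>
      intro h
      rw [Multiset.map_cons, Multiset.sum_cons, Complex.add_re]
      have h2 := ih fun b' hb' => h b' (Multiset.mem_cons_of_mem hb')
      have h3 := hn b (Multiset.mem_toFinset.2 (h b (Multiset.mem_cons_self b t')))
      have h4 : 0 ≤ ‖b‖ ^ n / 2 := by positivity
      linarith
  have h2 := h1 t fun b hb => by rw [ht]; exact Multiset.mem_cons_of_mem hb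
  have h3 := hn a (Multiset.mem_toFinset.2 ha)
  rw [ht, Multiset.map_cons, Multiset.sum_cons, Complex.add_re]
  linarith

/-- a root of largest absolute value -/
lemma exists_max_root {ι : Type} [Fintype ι] [DecidableEq ι] [Nonempty ι] (B : Matrix ι ι ℂ) :
    ∃ a ∈ B.charpoly.roots, ∀ b ∈ B.charpoly.roots, ‖b‖ ≤ ‖a‖ := by
  classical
  have hcard := card_roots' B
  have hne : B.charpoly.roots.toFinset.Nonempty := by
    rw [Multiset.toFinset_nonempty]
    intro h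
    rw [h, Multiset.card_zero] at hcard
    exact absurd hcard.symm Fintype.card_ne_zero
  obtain ⟨a, ha, hmax⟩ := exists_max_image _ (fun a : ℂ => ‖a‖) hne
  exact ⟨a, Multiset.mem_toFinset.1 ha, fun b hb => hmax b (Multiset.mem_toFinset.2 hb)⟩

/-- **the traces of the powers of a pseudo-Anosov braid** -/
theorem freq_alt {K A : ℕ} (hA : 1 ≤ A) (hN : 0 < N) (hK : 60000 * (2 * A + 3) ^ 2 * K ≤ N)
    (hpar : (N + K) % 2 = 1) {u : List (ℕ × Bool)} (hu : ∀ l ∈ u, l.1 < 2) {bs : List ℕ}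
    (hbs : ∀ b ∈ bs, 1 ≤ b ∧ b ≤ A) {r : ℕ} (hr : bs.length = 2 * r) (s : Bool) {i : ℤ} {g : (M3 N)ˣ}
    (hev : ev (uA N) (uB N) u = g * ((uA N * uB N * uA N) ^ (2 * i) *
      ev (uA N) (uB N) (alt s bs)) * g⁻¹) :
    Syn fun n => ((19 / 10 : ℝ) ^ (K * r)) ^ n / 2 ≤ ‖(rep3 N (wpow u n)).trace‖ := by
  have h := par_of hA hN hK
  obtain ⟨m, hm⟩ : ∃ m, N + K = 2 * m + 1 := ⟨(N + K) / 2, by omega⟩
  have hKN := h.KN
  have hlt : ∀ l ∈ alt s bs, l.1 < 2 := fun l hl => by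
    rcases alt_pos _ _ l hl with rfl | rfl <;> norm_num
  set C : M3 N := (((uD N) ^ (2 * i) : (M3 N)ˣ) : M3 N) * rep3 N (alt s bs) with hC
  have : Nonempty (I3 N) := ⟨(⟨0, hN⟩, (⟨0, hN⟩, ⟨0, hN⟩))⟩
  obtain ⟨a, ha, hmax⟩ := exists_max_root C
  have h1 := radius_alt h (by omega : m < N) hm hbs hr s i hC (norm_nonneg a) hmax
  have hAR : (1 : ℝ) ≤ A := by exact_mod_cast hA
  have h2 : (19 / 10 : ℝ) ≤ 1 + (1 - 2 * (1 / (8 * (2 * (A : ℝ) + 3)))) := by
    have h3 : 1 / (8 * (2 * (A : ℝ) + 3)) ≤ 1 / 40 :=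
      one_div_le_one_div_of_le (by norm_num) (by linarith)
    linarith
  have h3 := (pow_le_pow_left₀ (by norm_num : (0 : ℝ) ≤ 19 / 10) h2 (K * r)).trans h1
  -- the traces
  have hconj : ∀ n : ℕ, (rep3 N (wpow u n)).trace = (C ^ n).trace := by
    intro n
    have e1 : rep3 N u = (g : M3 N) * C * ((g⁻¹ : (M3 N)ˣ) : M3 N) := by
      rw [← ev_rep3 hu, hev, hC, ← ev_rep3 hlt]
      rw [Units.val_mul, Units.val_mul, Units.val_mul]
      rfl
    have e2 : ∀ n : ℕ, ((g : M3 N) * C * ((g⁻¹ : (M3 N)ˣ) : M3 N)) ^ n =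
        (g : M3 N) * C ^ n * ((g⁻¹ : (M3 N)ˣ) : M3 N) := by
      intro n
      induction n with
      | zero => rw [pow_zero, pow_zero, mul_one, ← Units.val_mul, mul_inv_cancel, Units.val_one]
      | succ n ih =>
        rw [pow_succ, ih, pow_succ]
        have : (g : M3 N) * C ^ n * ((g⁻¹ : (M3 N)ˣ) : M3 N) *
            ((g : M3 N) * C * ((g⁻¹ : (M3 N)ˣ) : M3 N)) =
            (g : M3 N) * C ^ n * (((g⁻¹ : (M3 N)ˣ) : M3 N) * (g : M3 N)) * C *
              ((g⁻¹ : (M3 N)ˣ) : M3 N) := by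
          simp only [mul_assoc]
        rw [this, ← Units.val_mul, inv_mul_cancel, Units.val_one]
        simp only [mul_assoc, one_mul]
    rw [rep3_wpow, e1, e2, Matrix.trace_mul_comm, ← mul_assoc, ← Units.val_mul, inv_mul_cancel,
      Units.val_one, one_mul]
  refine (trace_freq C ha).mono fun n _ hn => ?_
  rw [hconj]
  refine le_trans ?_ hn
  have := pow_le_pow_left₀ (by positivity) h3 n
  linarith

/-- **exponential growth for all pseudo-Anosov braids** -/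
theorem freq_growth {u : List (ℕ × Bool)} (hu : ∀ l ∈ u, l.1 < 2) {A : ℕ} (hA : 1 ≤ A)
    {bs : List ℕ} (hbs : ∀ b ∈ bs, 1 ≤ b ∧ b ≤ A) {r : ℕ} (hr : bs.length = 2 * r) (hr1 : 1 ≤ r)
    (s : Bool) {i : ℤ} (hev : ∀ N : ℕ, ∃ g : (M3 N)ˣ, ev (uA N) (uB N) u =
      g * ((uA N * uB N * uA N) ^ (2 * i) * ev (uA N) (uB N) (alt s bs)) * g⁻¹) :
    ∀ᶠ N : ℕ in atTop, Syn fun n =>
      Real.exp (r / (3000000 * (A : ℝ) ^ 2) * n * N) ≤ ‖(rep3 N (wpow u n)).trace‖ := by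
  have hrR : (1 : ℝ) ≤ r := by exact_mod_cast hr1
  have hAR : (1 : ℝ) ≤ A := by exact_mod_cast hA
  obtain ⟨q, hq⟩ : ∃ q : ℕ, q = 60000 * (2 * A + 3) ^ 2 := ⟨_, rfl⟩
  have hq0 : 0 < q := by rw [hq]; positivity
  have hqR : (0 : ℝ) < q := by exact_mod_cast hq0
  have hL : (63 / 100 : ℝ) < Real.log (19 / 10) := log_19
  set c : ℝ := r / (3000000 * (A : ℝ) ^ 2) with hc
  set c' : ℝ := Real.log (19 / 10) * r / q with hc'
  have hcc : c < c' := by
    rw [hc, hc', div_lt_div_iff₀ (by positivity) hqR]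
    have h1 : (q : ℝ) ≤ 60000 * 25 * (A : ℝ) ^ 2 := by
      rw [hq]; push_cast; nlinarith
    have h2 : (r : ℝ) * q ≤ r * (60000 * 25 * (A : ℝ) ^ 2) :=
      mul_le_mul_of_nonneg_left h1 (by linarith)
    have h3 : 63 / 100 * (r * (3000000 * (A : ℝ) ^ 2)) ≤
        Real.log (19 / 10) * (r * (3000000 * (A : ℝ) ^ 2)) :=
      mul_le_mul_of_nonneg_right hL.le (by positivity)
    have h4 : 0 < (r : ℝ) * (A : ℝ) ^ 2 := by positivity
    linarith
  have hD0 : 0 < 2 * (Real.log (19 / 10) * r) + Real.log 2 := by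
    have h1 : 0 < Real.log (19 / 10) := by linarith
    have h2 : 0 < Real.log 2 := Real.log_pos (by norm_num)
    positivity
  have hlarge : ∀ᶠ N : ℕ in atTop, 2 * (Real.log (19 / 10) * r) + Real.log 2 ≤ (c' - c) * N := by
    have h1 : Tendsto (fun N : ℕ => (c' - c) * (N : ℝ)) atTop atTop :=
      tendsto_natCast_atTop_atTop.const_mul_atTop (sub_pos.2 hcc)
    exact h1.eventually_ge_atTop _
  filter_upwards [hlarge, eventually_ge_atTop (q * 2)] with N hN1 hN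
  have hN0 : 0 < N := by omega
  obtain ⟨K, hK1, hK2, hK3⟩ : ∃ K : ℕ, q * K ≤ N ∧ N ≤ q * (K + 2) ∧ (N + K) % 2 = 1 := by
    have h1 : q * (N / q) ≤ N := Nat.mul_div_le _ _
    have h2 : N < q * (N / q + 1) := Nat.lt_mul_div_succ N hq0
    have h3 : 2 ≤ N / q := by rw [Nat.le_div_iff_mul_le hq0]; linarith
    rcases Nat.mod_two_eq_zero_or_one (N + N / q) with h | h
    · refine ⟨N / q - 1, ?_, ?_, by omega⟩
      · exact le_trans (Nat.mul_le_mul_left _ (by omega)) h1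
      · refine le_trans h2.le (Nat.mul_le_mul_left _ (by omega))
    · refine ⟨N / q, h1, ?_, h⟩
      refine le_trans h2.le (Nat.mul_le_mul_left _ (by omega))
  obtain ⟨g, hg⟩ := hev N
  have h4 := freq_alt hA hN0 (by rw [← hq]; exact hK1) hK3 hu hbs hr s hg
  refine h4.mono fun n hn1 hn => ?_
  refine le_trans ?_ hn
  -- `2 exp (c N) ≤ (19/10)^(K r)`
  have h5 : 2 * Real.exp (c * N) ≤ (19 / 10 : ℝ) ^ (K * r) := by
    have e1 : (19 / 10 : ℝ) ^ (K * r) = Real.exp (Real.log (19 / 10) * ((K * r : ℕ) : ℝ)) := by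
      rw [Real.exp_mul, Real.exp_log (by norm_num), Real.rpow_natCast]
    have e2 : 2 * Real.exp (c * N) = Real.exp (Real.log 2 + c * N) := by
      rw [Real.exp_add, Real.exp_log (by norm_num)]
    rw [e1, e2]
    refine Real.exp_le_exp.2 ?_
    have h6 : (N : ℝ) / q ≤ K + 2 := by
      rw [div_le_iff₀ hqR]
      have : (N : ℝ) ≤ q * (K + 2) := by exact_mod_cast hK2
      linarith
    have h7 : 0 ≤ Real.log (19 / 10) * r := by
      have : 0 < Real.log (19 / 10) := by linarith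
      positivity
    have e3 : c' * N = Real.log (19 / 10) * r * (N / q) := by rw [hc']; ring
    push_cast
    nlinarith
  have h6 : 2 * Real.exp (c * N) ^ n ≤ ((19 / 10 : ℝ) ^ (K * r)) ^ n := by
    refine le_trans ?_ (pow_le_pow_left₀ (by positivity) h5 n)
    rw [mul_pow]
    refine mul_le_mul_of_nonneg_right ?_ (by positivity)
    calc (2 : ℝ) = 2 ^ 1 := (pow_one _).symm
      _ ≤ 2 ^ n := pow_le_pow_right₀ (by norm_num) hn1
  have e5 : Real.exp (c * n * N) = Real.exp (c * N) ^ n := by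
    rw [← Real.exp_nat_mul]; congr 1; ring
  rw [e5]
  linarith

end Pool.Agent.H62.VC
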