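import Pool.Agent.H62.VC.Region
import Pool.Graph.R_pool_sql_team_seeded_843ab51a.V11115.VC.F
import Pool.Graph.R_pool_sql_team_seeded_843ab51a.V11115.VC.Lo

/-!
The coordinates of highest weight vectors, and the spectral radius.
-/

set_option autoImplicit false

namespace Pool.Agent.H62.VC

open Matrix Finset Filter Topology Pool.Agent.H550R3.Jones Pool.Agent.W715.VC
  Pool.Agent.V11115.VC

variable {N : ℕ}

/-- the coordinates -/
noncomputable def Yc (N m : ℕ) (x : I3 N → ℂ) (d : ℕ) : ℂ := (-(rt N ^ m)) ^ d * LL N m (m - d) x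

lemma qc_ratio {K d e : ℕ} (hK : K < N) (hd : d ≤ K) (he : e ≤ K) :
    qb N e d * qb N K (K - e) / qb N K (K - d) = qb N ((K - d : ℕ) : ℤ) (K - e) := by
  rcases Nat.lt_or_ge e d with h | h
  · rw [qb_gt h, qb_gt (by omega : K - d < K - e)]; simp
  · rw [qb_FF (by omega : e < N) h, qb_FF hK (by omega : K - e ≤ K), qb_FF hK (by omega : K - d ≤ K),
      qb_FF (by omega : K - d < N) (by omega : K - e ≤ K - d)]
    have e1 : K - (K - e) = e := by omega
    have e2 : K - (K - d) = d := by omega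
    have e3 : K - d - (K - e) = e - d := by omega
    rw [e1, e2, e3]
    have p1 := (FF1_pos (N := N) (n := e) (by omega)).ne'
    have p2 := (FF1_pos (N := N) (n := d) (by omega)).ne'
    have p3 := (FF1_pos (N := N) (n := e - d) (by omega)).ne'
    have p4 := (FF1_pos (N := N) (n := K) (by omega)).ne'
    have p5 := (FF1_pos (N := N) (n := K - e) (by omega)).ne'
    have p6 := (FF1_pos (N := N) (n := K - d) (by omega)).ne'
    field_simp

lemma neg_rt_pow (m d : ℕ) : (-(rt N ^ m)) ^ d = (-1) ^ d * rt N ^ ((m : ℤ) * d) := by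
  rw [neg_pow, ← pow_mul, ← zpow_natCast (rt N) (m * d)]
  push_cast
  rfl

lemma neg_pow_sub {m d : ℕ} (h : d ≤ m) : ((-1 : ℂ)) ^ (m - d) = (-1) ^ m * (-1) ^ d := by
  have : m = (m - d) + d := by omega
  conv_rhs => rw [this]
  rw [pow_add, mul_assoc, neg_sq_pow, mul_one]

lemma Yc_P {m K : ℕ} (hm : m < N) (hK : N + K = 2 * m + 1) {x : I3 N → ℂ} (hx : InK m x) {d : ℕ}
    (hd : d ≤ K) : Yc N m (on23 (PP N) *ᵥ x) d =
      (-rt N * (-1) ^ m * rt N ^ ((m : ℤ) * (m + 1))) * TP N K (Yc N m x) d := by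
  have h0 := rt_ne N
  have hN : 0 < N := by omega
  unfold Yc TP
  rw [LP hm hK hx hd, mul_sum, mul_sum]
  refine sum_congr rfl fun e he => ?_
  rw [mem_range] at he
  have hed : e ≤ m := by omega
  unfold pa qc
  beta_reduce
  rw [neg_rt_pow, neg_rt_pow, neg_pow_sub (by omega : d ≤ m)]
  have g1 : ((m - d : ℕ) : ℤ) = m - d := by omega
  have g2 : ((m - e : ℕ) : ℤ) = m - e := by omega
  rw [g1, g2]
  have h1 := neg_sq_pow d
  have h2 := neg_sq_pow e
  have h3 := rt_eN' hN e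
  have h4 : rt N ^ ((m : ℤ) * d) * rt N ^ (((m : ℤ) - d + 1) * (m - e)) =
      rt N ^ ((m : ℤ) * (m + 1)) * rt N ^ (-((e : ℤ) * (K - d))) * rt N ^ ((m : ℤ) * e) *
        rt N ^ (-((e : ℤ) * N)) := by
    rw [← zpow_add₀ h0, ← zpow_add₀ h0, ← zpow_add₀ h0, ← zpow_add₀ h0]
    congr 1
    have : (N : ℤ) = 2 * m + 1 - K := by omega
    rw [this]; ring
  rw [h3] at h4
  linear_combination (-rt N * (-1) ^ m * ((qb N d e : ℝ) : ℂ) * LL N m (m - e) x) *
    (rt N ^ ((m : ℤ) * d) * rt N ^ (((m : ℤ) - d + 1) * (m - e)) * h1 + h4)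

lemma Yc_Q {m K : ℕ} (hm : m < N) (hK : N + K = 2 * m + 1) {x : I3 N → ℂ} (hx : InK m x) {d : ℕ}
    (hd : d ≤ K) : Yc N m (on12 (QQ N) *ᵥ x) d =
      (-(rt N)⁻¹ * (-1) ^ m * rt N ^ (-((m : ℤ) * (m + 1)))) * TQ N K (Yc N m x) d := by
  have h0 := rt_ne N
  have hN : 0 < N := by omega
  unfold Yc TQ
  rw [LQ hm hK hx hd, mul_sum, mul_sum]
  refine sum_congr rfl fun e he => ?_
  rw [mem_range] at he
  have hed : e ≤ m := by omega
  unfold pb qc
  beta_reduce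
  rw [neg_rt_pow, neg_rt_pow, neg_pow_sub hed, DD_eq hm hK hd, DD_eq hm hK (by omega : e ≤ K),
    qc_ratio (by omega) hd (by omega)]
  have g1 : ((m - d : ℕ) : ℤ) = m - d := by omega
  have g2 : ((m - e : ℕ) : ℤ) = m - e := by omega
  rw [g1, g2]
  have h1 := neg_sq_pow d
  have h2 := neg_sq_pow e
  have h3 := rt_eN hN d
  have h4 : rt N ^ ((m : ℤ) * d) * rt N ^ (-((m : ℤ) - e + 1) * (m - d)) =
      rt N ^ (-((m : ℤ) * (m + 1))) * rt N ^ ((d : ℤ) * (K - e)) * rt N ^ ((m : ℤ) * e) *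
        rt N ^ ((d : ℤ) * N) := by
    rw [← zpow_add₀ h0, ← zpow_add₀ h0, ← zpow_add₀ h0, ← zpow_add₀ h0]
    congr 1
    have : (N : ℤ) = 2 * m + 1 - K := by omega
    rw [this]; ring
  rw [h3] at h4
  linear_combination (-(rt N)⁻¹ * (-1) ^ m * (-1) ^ d * (-1) ^ e *
    ((qb N ((K - d : ℕ) : ℤ) (K - e) : ℝ) : ℂ) * LL N m (m - e) x) * h4 +
    (-(rt N)⁻¹ * (-1) ^ m * (-1) ^ e * ((qb N ((K - d : ℕ) : ℤ) (K - e) : ℝ) : ℂ) *
      LL N m (m - e) x * rt N ^ (-((m : ℤ) * (m + 1))) * rt N ^ ((d : ℤ) * (K - e)) *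
      rt N ^ ((m : ℤ) * e)) * h1

lemma TP_congr {K : ℕ} {y y' : ℕ → ℂ} {c : ℂ} (h : ∀ e, e ≤ K → y e = c * y' e) (d : ℕ) :
    TP N K y d = c * TP N K y' d := by
  unfold TP
  rw [mul_sum]
  refine sum_congr rfl fun e he => ?_
  rw [mem_range] at he
  rw [h e (by omega)]; ring

lemma TQ_congr {K : ℕ} {y y' : ℕ → ℂ} {c : ℂ} (h : ∀ e, e ≤ K → y e = c * y' e) (d : ℕ) :
    TQ N K y d = c * TQ N K y' d := by
  unfold TQ
  rw [mul_sum]
  refine sum_congr rfl fun e he => ?_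
  rw [mem_range] at he
  rw [h e (by omega)]; ring

/-- the coordinates of the images -/
lemma Yc_word {m K : ℕ} (hm : m < N) (hK : N + K = 2 * m + 1) {z : I3 N → ℂ} (hz : InK m z)
    {y0 : ℕ → ℂ} (hy0 : ∀ d, d ≤ K → Yc N m z d = y0 d)
    (w : List (ℕ × Bool)) (hw : ∀ l ∈ w, Pos l) : ∃ c : ℂ, ‖c‖ = 1 ∧
      ∀ d, d ≤ K → Yc N m (rep3 N w *ᵥ z) d = c * TW N K w y0 d := by
  induction w with
  | nil =>
    refine ⟨1, norm_one, fun d hd => ?_⟩
    rw [rep3_nil, one_mulVec, one_mul, hy0 d hd]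
    rfl
  | cons l w ih =>
    obtain ⟨c, hc, h⟩ := ih fun l' hl' => hw l' (List.mem_cons_of_mem _ hl')
    have hx : InK m (rep3 N w *ᵥ z) := (good_rep3 w).InK hz
    rcases hw l List.mem_cons_self with rfl | rfl
    · refine ⟨(-rt N * (-1) ^ m * rt N ^ ((m : ℤ) * (m + 1))) * c, ?_, fun d hd => ?_⟩
      · rw [norm_mul, norm_mul, norm_mul, norm_neg, norm_rt', norm_rt_zpow, norm_pow, norm_neg,
          norm_one, one_pow, hc]
        norm_num
      · rw [rep3_cons, ← Matrix.mulVec_mulVec, g3_P23, Yc_P hm hK hx hd, TP_congr h d]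
        have : TW N K ((1, true) :: w) y0 = TP N K (TW N K w y0) := by simp [TW]
        rw [this]; ring
    · refine ⟨(-(rt N)⁻¹ * (-1) ^ m * rt N ^ (-((m : ℤ) * (m + 1)))) * c, ?_, fun d hd => ?_⟩
      · rw [norm_mul, norm_mul, norm_mul, norm_neg, norm_inv, norm_rt', norm_rt_zpow, norm_pow,
          norm_neg, norm_one, one_pow, hc]
        norm_num
      · rw [rep3_cons, ← Matrix.mulVec_mulVec, g3_Q12, Yc_Q hm hK hx hd, TQ_congr h d]
        have : TW N K ((0, false) :: w) y0 = TQ N K (TW N K w y0) := by simp [TW]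
        rw [this]; ring

lemma LL_add' (m i : ℕ) (x y : I3 N → ℂ) : LL N m i (x + y) = LL N m i x + LL N m i y := by
  unfold LL
  rw [← sum_add_distrib]
  refine sum_congr rfl fun a _ => ?_
  rw [tt_add]; ring

lemma LL_smul' (m i : ℕ) (r : ℂ) (x : I3 N → ℂ) : LL N m i (r • x) = r * LL N m i x := by
  unfold LL
  rw [mul_sum]
  refine sum_congr rfl fun a _ => ?_
  rw [tt_smul]; ring

/-- the functional -/
noncomputable def Phi (N m K : ℕ) : (I3 N → ℂ) →ₗ[ℂ] ℂ where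
  toFun x := Ev (List.replicate K 1) (Yc N m x)
  map_add' x y := by
    simp only [Ev_eq]
    rw [← sum_add_distrib]
    refine sum_congr rfl fun a _ => ?_
    unfold Yc
    rw [LL_add']; ring
  map_smul' r x := by
    simp only [Ev_eq, smul_eq_mul, RingHom.id_apply]
    rw [mul_sum]
    refine sum_congr rfl fun a _ => ?_
    unfold Yc
    rw [LL_smul']; ring

attribute [local instance] Matrix.linftyOpNormedRing Matrix.linftyOpNormedAlgebra

/-- the spectral radius -/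
lemma radius_le {ι : Type} [Fintype ι] [DecidableEq ι] (B : Matrix ι ι ℂ) {M : ℝ} (hM0 : 0 ≤ M)
    (hM : ∀ a ∈ B.charpoly.roots, ‖a‖ ≤ M) (Φ : (ι → ℂ) →ₗ[ℂ] ℂ) (z : ι → ℂ) {ρ : ℝ}
    (h : ∀ n : ℕ, ρ ^ n ≤ ‖Φ (B ^ n *ᵥ z)‖) : ρ ≤ M := by
  by_contra hcon
  rw [not_le] at hcon
  obtain ⟨M', h1, h2⟩ := exists_between hcon
  have hM' : 0 < M' := by linarith
  have h3 := pow_bound B hM0 hM h1
  set Ψ := LinearMap.toContinuousLinearMap Φ with hΨ
  set C := ‖Ψ‖ * ‖z‖ with hC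
  have h4 : ∀ᶠ n : ℕ in atTop, ρ ^ n ≤ C * M' ^ n := by
    filter_upwards [h3] with n hn
    refine (h n).trans ?_
    have h5 : ‖Φ (B ^ n *ᵥ z)‖ ≤ ‖Ψ‖ * ‖B ^ n *ᵥ z‖ := Ψ.le_opNorm _
    have h6 : ‖B ^ n *ᵥ z‖ ≤ M' ^ n * ‖z‖ :=
      (Matrix.linfty_opNorm_mulVec _ _).trans (mul_le_mul_of_nonneg_right hn (norm_nonneg _))
    refine h5.trans ((mul_le_mul_of_nonneg_left h6 (norm_nonneg _)).trans (le_of_eq ?_))
    rw [hC]; ring
  have h5 : Tendsto (fun n : ℕ => (ρ / M') ^ n) atTop atTop :=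
    tendsto_pow_atTop_atTop_of_one_lt ((one_lt_div hM').2 h2)
  obtain ⟨n, hn1, hn2⟩ := ((h5.eventually_gt_atTop C).and h4).exists
  rw [div_pow, lt_div_iff₀ (by positivity)] at hn1
  linarith

end Pool.Agent.H62.VC
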