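import Pool.Agent.H62.VC.QB

/-!
The dynamics of the points in a sector around the positive half axis.
-/

set_option autoImplicit false

namespace Pool.Agent.H62.VC

open Finset Pool.Agent.H550R3.Jones Pool.Agent.W715.VC Pool.Agent.V11115.VC

/-- the sector -/
def Cone (z : ℂ) : Prop := |z.im| ≤ z.re / 4

lemma Cone.re_nonneg {z : ℂ} (h : Cone z) : 0 ≤ z.re := by
  have h1 := abs_nonneg z.im
  have h2 : |z.im| ≤ z.re / 4 := h
  linarith

lemma Cone.one_add {z : ℂ} (h : Cone z) : 1 + ‖z‖ ≤ 26 / 25 * ‖1 + z‖ := by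
  have h0 := h.re_nonneg
  have h1 : |z.im| ≤ z.re / 4 := h
  have h2 : ‖z‖ ≤ 26 / 25 * z.re := by
    refine abs_le_of_sq_le_sq' ?_ (by linarith) |>.2
    rw [← Complex.normSq_eq_norm_sq, Complex.normSq_apply]
    have h3 : z.im * z.im ≤ (z.re / 4) * (z.re / 4) := by
      rw [← abs_mul_abs_self z.im]
      exact mul_le_mul h1 h1 (abs_nonneg _) (by linarith)
    nlinarith
  have h4 : 1 + z.re ≤ ‖1 + z‖ := by
    have := Complex.re_le_norm (1 + z)
    simpa using this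
  linarith

lemma pert {φ ω : ℂ} {e t : ℝ} (_ht : t ≤ 1) (he : 0 ≤ e) (het : 25 / 4 * e ≤ t) (hφ : 0 ≤ φ.re)
    (him : |φ.im| ≤ (1 - t) / 4 * φ.re) (h : ‖ω - φ‖ ≤ e * ‖φ‖) :
    Cone ω ∧ (1 - 2 * e) * φ.re ≤ ω.re ∧ ω.re ≤ (1 + 2 * e) * φ.re := by
  have h1 : ‖φ‖ ≤ 5 / 4 * φ.re := by
    have h2 := Complex.norm_le_abs_re_add_abs_im φ
    rw [abs_of_nonneg hφ] at h2
    nlinarith
  have h2 : |(ω - φ).re| ≤ 5 / 4 * e * φ.re :=
    (Complex.abs_re_le_norm _).trans (h.trans (by nlinarith))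
  have h3 : |(ω - φ).im| ≤ 5 / 4 * e * φ.re :=
    (Complex.abs_im_le_norm _).trans (h.trans (by nlinarith))
  rw [Complex.sub_re] at h2
  rw [Complex.sub_im] at h3
  have h4 := abs_le.1 h2
  have h5 := abs_le.1 h3
  have h6 := abs_le.1 him
  refine ⟨?_, by nlinarith, by nlinarith⟩
  unfold Cone
  rw [abs_le]
  constructor <;> nlinarith

/-- the root condition of `s_2` -/
lemma near_P {z ω ξ : ℂ} {e ρ₁ : ℝ} (hz : Cone z) (hξ : ‖ξ‖ = 1) (hξ1 : ‖ξ - 1‖ ≤ e / 8)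
    (_he : 0 ≤ e) (he1 : e ≤ 1 / 40) (hρ0 : 0 ≤ ρ₁) (hρ : ρ₁ ≤ e / 3)
    (h : ‖z * ξ - (1 + z) * ω‖ < ρ₁ * (‖ω‖ + ‖z‖ * ‖ω‖ + ‖z‖)) :
    ‖ω - z / (1 + z)‖ ≤ e * ‖z / (1 + z)‖ := by
  have h1 := hz.one_add
  have hs : 0 < ‖1 + z‖ := by have := norm_nonneg z; linarith
  have hs' : 1 + z ≠ 0 := norm_pos_iff.1 hs
  set φ := z / (1 + z) with hφ
  have hzφ : z = φ * (1 + z) := by rw [hφ]; field_simp
  have hnz : ‖z‖ = ‖φ‖ * ‖1 + z‖ := by
    conv_lhs => rw [hzφ]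
    rw [norm_mul]
  have e1 : z * ξ - (1 + z) * ω = -((1 + z) * (ω - φ * ξ)) := by
    linear_combination ξ * hzφ
  have e2 : ‖z * ξ - (1 + z) * ω‖ = ‖1 + z‖ * ‖ω - φ * ξ‖ := by
    rw [e1, norm_neg, norm_mul]
  set δ := ‖ω - φ * ξ‖ with hδ
  have hω : ‖ω‖ ≤ ‖φ‖ + δ := by
    have := norm_add_le (ω - φ * ξ) (φ * ξ)
    rw [sub_add_cancel, norm_mul, hξ, mul_one] at this
    linarith
  have h2 : δ ≤ ρ₁ * (26 / 25 * ‖ω‖ + ‖φ‖) := by
    have h3 : ‖1 + z‖ * δ ≤ ‖1 + z‖ * (ρ₁ * (26 / 25 * ‖ω‖ + ‖φ‖)) := by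
      rw [← e2]
      refine h.le.trans ?_
      have h4 : ‖ω‖ + ‖z‖ * ‖ω‖ + ‖z‖ ≤ ‖1 + z‖ * (26 / 25 * ‖ω‖ + ‖φ‖) := by
        have h5 := mul_le_mul_of_nonneg_right h1 (norm_nonneg ω)
        nlinarith
      calc ρ₁ * (‖ω‖ + ‖z‖ * ‖ω‖ + ‖z‖) ≤ ρ₁ * (‖1 + z‖ * (26 / 25 * ‖ω‖ + ‖φ‖)) :=
            mul_le_mul_of_nonneg_left h4 hρ0
        _ = _ := by ring
    exact le_of_mul_le_mul_left h3 hs
  have hδ0 : 0 ≤ δ := norm_nonneg _
  have hφ0 : 0 ≤ ‖φ‖ := norm_nonneg _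
  have h6 : ρ₁ * (26 / 25 * ‖ω‖ + ‖φ‖) ≤ ρ₁ * (51 / 25 * ‖φ‖ + 26 / 25 * δ) :=
    mul_le_mul_of_nonneg_left (by linarith) hρ0
  have h7 : ρ₁ * (26 / 25 * δ) ≤ 1 / 100 * δ := by nlinarith
  have h8 : ρ₁ * (51 / 25 * ‖φ‖) ≤ e / 3 * (51 / 25 * ‖φ‖) :=
    mul_le_mul_of_nonneg_right hρ (by positivity)
  have h9 : δ ≤ 7 / 10 * e * ‖φ‖ := by nlinarith
  have e3 : ω - φ = (ω - φ * ξ) + φ * (ξ - 1) := by ring
  calc ‖ω - φ‖ ≤ δ + ‖φ‖ * ‖ξ - 1‖ := by
        rw [e3]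
        refine (norm_add_le _ _).trans ?_
        rw [norm_mul]
    _ ≤ 7 / 10 * e * ‖φ‖ + ‖φ‖ * (e / 8) :=
        add_le_add h9 (mul_le_mul_of_nonneg_left hξ1 hφ0)
    _ ≤ e * ‖φ‖ := by nlinarith

/-- the root condition of `s_1⁻¹` -/
lemma near_Q {z ω ξ : ℂ} {e ρ₁ : ℝ} (hz : Cone z) (hξ : ‖ξ‖ = 1) (hξ1 : ‖ξ - 1‖ ≤ e / 8)
    (he : 0 ≤ e) (he1 : e ≤ 1 / 40) (hρ0 : 0 ≤ ρ₁) (hρ : ρ₁ ≤ e / 3)
    (h : ‖(1 + z) - ξ * ω‖ < ρ₁ * (‖z‖ + 1 + ‖ω‖)) :
    ‖ω - (1 + z)‖ ≤ e * ‖1 + z‖ := by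
  have h1 := hz.one_add
  set φ := 1 + z with hφ
  set δ := ‖φ - ξ * ω‖ with hδ
  have hω : ‖ω‖ ≤ ‖φ‖ + δ := by
    have := norm_sub_le φ (φ - ξ * ω)
    rw [sub_sub_cancel, norm_mul, hξ, one_mul] at this
    linarith
  have hδ0 : 0 ≤ δ := norm_nonneg _
  have hφ0 : 0 ≤ ‖φ‖ := norm_nonneg _
  have h2 : δ ≤ ρ₁ * (51 / 25 * ‖φ‖ + δ) :=
    h.le.trans (mul_le_mul_of_nonneg_left (by linarith) hρ0)
  have h7 : ρ₁ * δ ≤ 1 / 100 * δ := by nlinarith
  have h8 : ρ₁ * (51 / 25 * ‖φ‖) ≤ e / 3 * (51 / 25 * ‖φ‖) :=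
    mul_le_mul_of_nonneg_right hρ (by positivity)
  have h9 : δ ≤ 7 / 10 * e * ‖φ‖ := by nlinarith
  have h10 : ‖ω‖ ≤ 11 / 10 * ‖φ‖ := by nlinarith
  have e3 : ω - φ = -(φ - ξ * ω) - ω * (ξ - 1) := by ring
  calc ‖ω - φ‖ ≤ δ + ‖ω‖ * ‖ξ - 1‖ := by
        rw [e3]
        refine (norm_sub_le _ _).trans ?_
        rw [norm_neg, norm_mul]
    _ ≤ 7 / 10 * e * ‖φ‖ + (11 / 10 * ‖φ‖) * (e / 8) :=
        add_le_add h9 (mul_le_mul h10 hξ1 (norm_nonneg _) (by positivity))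
    _ ≤ e * ‖φ‖ := by nlinarith

lemma phi_P {z : ℂ} (hz : Cone z) (hz0 : 0 < z.re) :
    z.re / (1 + z.re) ≤ (z / (1 + z)).re ∧ (z / (1 + z)).re ≤ 1 ∧
      |(z / (1 + z)).im| ≤ (1 - z.re / (1 + z.re)) / 4 * (z / (1 + z)).re := by
  obtain ⟨x, y⟩ := z
  have h1 : |y| ≤ x / 4 := hz
  simp only at hz0 ⊢
  have hD : 0 < (1 + x) * (1 + x) + y * y := by
    have h2 : 0 < (1 + x) * (1 + x) := by positivity
    have h3 := mul_self_nonneg y
    linarith
  have hre : ((⟨x, y⟩ : ℂ) / (1 + ⟨x, y⟩)).re = (x + x * x + y * y) / ((1 + x) * (1 + x) + y * y) := by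
    rw [Complex.div_re, Complex.normSq_apply]
    simp only [Complex.add_re, Complex.one_re, Complex.add_im, Complex.one_im, zero_add]
    rw [← add_div]
    congr 1
    ring
  have him : ((⟨x, y⟩ : ℂ) / (1 + ⟨x, y⟩)).im = y / ((1 + x) * (1 + x) + y * y) := by
    rw [Complex.div_im, Complex.normSq_apply]
    simp only [Complex.add_re, Complex.one_re, Complex.add_im, Complex.one_im, zero_add]
    rw [← sub_div]
    congr 1
    ring
  rw [hre, him]
  refine ⟨?_, ?_, ?_⟩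
  · rw [div_le_div_iff₀ (by linarith) hD]
    nlinarith [mul_self_nonneg y]
  · rw [div_le_one hD]
    nlinarith [mul_self_nonneg y]
  · have e1 : 1 - x / (1 + x) = 1 / (1 + x) := by field_simp; ring
    rw [e1, abs_div, abs_of_pos hD, div_div, one_div, ← mul_div_assoc]
    refine div_le_div_of_nonneg_right ?_ hD.le
    rw [inv_mul_eq_div, le_div_iff₀ (by positivity)]
    nlinarith [mul_self_nonneg y]

/-- one letter `s_2` -/
lemma reg_P {z ω ξ : ℂ} {a e ρ₁ : ℝ} (hz : Cone z) (ha : 0 < a) (haz : a ≤ z.re)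
    (hae : 25 / 4 * e ≤ a / (1 + a)) (hξ : ‖ξ‖ = 1) (hξ1 : ‖ξ - 1‖ ≤ e / 8)
    (he : 0 ≤ e) (he1 : e ≤ 1 / 40) (hρ0 : 0 ≤ ρ₁) (hρ : ρ₁ ≤ e / 3)
    (h : ‖z * ξ - (1 + z) * ω‖ < ρ₁ * (‖ω‖ + ‖z‖ * ‖ω‖ + ‖z‖)) :
    Cone ω ∧ (1 - 2 * e) * (a / (1 + a)) ≤ ω.re ∧ ω.re ≤ 1 + 2 * e := by
  have h1 := near_P hz hξ hξ1 he he1 hρ0 hρ h
  have hz0 : 0 < z.re := by linarith
  obtain ⟨h2, h3, h4⟩ := phi_P hz hz0
  have h5 : a / (1 + a) ≤ z.re / (1 + z.re) := by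
    rw [div_le_div_iff₀ (by linarith) (by linarith)]
    nlinarith
  have h6 : z.re / (1 + z.re) ≤ 1 := by rw [div_le_one (by linarith)]; linarith
  have h7 : 0 ≤ z.re / (1 + z.re) := by positivity
  obtain ⟨h8, h9, h10⟩ := pert h6 he (by linarith) (by linarith) h4 h1
  refine ⟨h8, le_trans ?_ h9, h10.trans ?_⟩
  · exact mul_le_mul_of_nonneg_left (by linarith) (by linarith)
  · nlinarith

/-- one letter `s_1⁻¹` -/
lemma reg_Q {z ω ξ : ℂ} {b e ρ₁ : ℝ} (hz : Cone z) (hbz : z.re ≤ b)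
    (hbe : 25 / 4 * e ≤ 1 / (1 + b)) (hξ : ‖ξ‖ = 1) (hξ1 : ‖ξ - 1‖ ≤ e / 8)
    (he : 0 ≤ e) (he1 : e ≤ 1 / 40) (hρ0 : 0 ≤ ρ₁) (hρ : ρ₁ ≤ e / 3)
    (h : ‖(1 + z) - ξ * ω‖ < ρ₁ * (‖z‖ + 1 + ‖ω‖)) :
    Cone ω ∧ 1 - 2 * e ≤ ω.re ∧ ω.re ≤ (1 + 2 * e) * (1 + b) := by
  have h1 := near_Q hz hξ hξ1 he he1 hρ0 hρ h
  have hz0 := hz.re_nonneg
  have hz1 : |z.im| ≤ z.re / 4 := hz
  have h5 : 1 / (1 + b) ≤ 1 / (1 + z.re) := one_div_le_one_div_of_le (by linarith) (by linarith)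
  have h6 : 1 / (1 + z.re) ≤ 1 := by rw [div_le_one (by linarith)]; linarith
  have hre : (1 + z).re = 1 + z.re := by simp
  have him : (1 + z).im = z.im := by simp
  obtain ⟨h8, h9, h10⟩ := pert (φ := 1 + z) h6 he (by linarith) (by rw [hre]; linarith) (by
    rw [hre, him]
    have : (1 - 1 / (1 + z.re)) / 4 * (1 + z.re) = z.re / 4 := by field_simp; ring
    rw [this]; exact hz1) h1
  rw [hre] at h9 h10
  refine ⟨h8, ?_, h10.trans ?_⟩
  · nlinarith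
  · exact mul_le_mul_of_nonneg_left (by linarith) (by linarith)

/-! ### words -/

/-- the operator of a word in `s_2` and `s_1⁻¹` -/
noncomputable def TW (N K : ℕ) : List (ℕ × Bool) → (ℕ → ℂ) → (ℕ → ℂ)
  | [], y => y
  | l :: w, y => (if l = (1, true) then TP N K else TQ N K) (TW N K w y)

/-- the letter -/
def lett (s : Bool) : ℕ × Bool := if s then (1, true) else (0, false)

/-- the word `s_2^{b_1} s_1^{-b_2} s_2^{b_3} …` (or starting with `s_1⁻¹`) -/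
def alt : Bool → List ℕ → List (ℕ × Bool)
  | _, [] => []
  | s, b :: bs => List.replicate b (lett s) ++ alt (!s) bs

/-- the number of blocks of `s_2` -/
def nP : Bool → List ℕ → ℕ
  | _, [] => 0
  | s, _ :: bs => (if s then 1 else 0) + nP (!s) bs

/-- the parameters -/
structure Par (N K A : ℕ) (e : ℝ) : Prop where
  N0 : 0 < N
  KN : K < N
  e0 : 0 < e
  e1 : e ≤ 1 / 40
  Ke : K * (2 * Real.pi / N) ≤ 3 * e ^ 2 / 400
  gA : 25 / 4 * e * (A + 1) ≤ (1 - 2 * e) ^ A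
  GA : 25 / 4 * e * (1 + A * (1 + 2 * e) ^ A) ≤ 1

variable {N K A : ℕ} {e : ℝ}

lemma Par.near (h : Par N K A e) (n : ℤ) (hn : |n| ≤ K) : ‖rt N ^ n - 1‖ ≤ e / 8 := by
  have hN : (0 : ℝ) < N := by exact_mod_cast h.N0
  have h1 : |(n : ℝ)| ≤ K := by exact_mod_cast hn
  refine (rt_near N n).trans ?_
  have h2 : Real.pi * |(n : ℝ)| / N ≤ K * (2 * Real.pi / N) := by
    rw [← mul_div_assoc]
    refine div_le_div_of_nonneg_right ?_ hN.le
    nlinarith [Real.pi_pos, abs_nonneg (n : ℝ)]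
  have h3 := h.Ke
  have h4 := h.e0
  have h5 := h.e1
  nlinarith

lemma Par.eta (h : Par N K A e) : ‖rt N ^ 2 - 1‖ ≤ 2 * Real.pi / N := by
  have h1 := rt_near N 2
  have e1 : rt N ^ (2 : ℤ) = rt N ^ 2 := by norm_cast
  rw [e1] at h1
  refine h1.trans (le_of_eq ?_)
  norm_num
  ring

lemma Par.rho (h : Par N K A e) : e / 4 + 2 * K * (2 * Real.pi / N) ≤ e / 3 := by
  have h3 := h.Ke
  have h4 := h.e0
  have h5 := h.e1
  nlinarith

lemma Par.g_pos (h : Par N K A e) : 0 < 1 - 2 * e := by have := h.e1; linarith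

lemma Par.g_le (h : Par N K A e) : 1 - 2 * e ≤ 1 := by have := h.e0; linarith

/-- one letter `s_2` -/
lemma Par.P (h : Par N K A e) (L : List ℂ) (hL : L.length = K) {a : ℝ} (ha : 0 < a)
    (hae : 25 / 4 * e ≤ a / (1 + a)) (hz : ∀ z ∈ L, Cone z ∧ a ≤ z.re) :
    ∃ Ω : List ℂ, Ω.length = K ∧
      (∀ y : ℕ → ℂ, Ev L (TP N K y) = (L.map fun z => 1 + z).prod * Ev Ω y) ∧
      ∀ ω ∈ Ω, Cone ω ∧ (1 - 2 * e) * (a / (1 + a)) ≤ ω.re ∧ ω.re ≤ 1 + 2 * e := by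
  have hN : (0 : ℝ) < N := by exact_mod_cast h.N0
  have he0 := h.e0
  have he1 := h.e1
  obtain ⟨Ω, h1, h2, h3⟩ := stepP (N := N) h.KN L hL (fun z hz' => by
    have h4 := (hz z hz').2
    constructor
    · intro h5; rw [h5] at h4; simp at h4; linarith
    · intro h5
      have h6 : (1 + z).re = 0 := by rw [h5]; simp
      simp at h6; linarith) (ρ := e / 4) (η := 2 * Real.pi / N) (by linarith) (by linarith)
      (by positivity) h.eta (h.Ke.trans (le_of_eq (by ring)))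
  refine ⟨Ω, h1, h2, fun ω hω => ?_⟩
  obtain ⟨z, hz', h5⟩ := h3 ω hω
  have hρ0 : 0 ≤ e / 4 + 2 * K * (2 * Real.pi / N) := by positivity
  refine reg_P (hz z hz').1 ha (hz z hz').2 hae (norm_rt_zpow _ _) ?_ he0.le he1 hρ0 h.rho h5
  rcases Nat.eq_zero_or_pos K with hK | hK
  · rw [hK, List.length_eq_zero_iff] at hL
    rw [hL] at hz'
    exact absurd hz' List.not_mem_nil
  · exact h.near _ (by rw [abs_le]; omega)

/-- one letter `s_1⁻¹` -/
lemma Par.Q (h : Par N K A e) (L : List ℂ) (hL : L.length = K) {b : ℝ}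
    (hbe : 25 / 4 * e ≤ 1 / (1 + b)) (hz : ∀ z ∈ L, Cone z ∧ z.re ≤ b) :
    ∃ Ω : List ℂ, Ω.length = K ∧ (∀ y : ℕ → ℂ, Ev L (TQ N K y) = Ev Ω y) ∧
      ∀ ω ∈ Ω, Cone ω ∧ 1 - 2 * e ≤ ω.re ∧ ω.re ≤ (1 + 2 * e) * (1 + b) := by
  have hN : (0 : ℝ) < N := by exact_mod_cast h.N0
  have he0 := h.e0
  have he1 := h.e1
  obtain ⟨Ω, h1, h2, h3⟩ := stepQ (N := N) h.KN L hL (ρ := e / 4) (η := 2 * Real.pi / N)
    (by linarith) (by linarith) (by positivity) h.eta (h.Ke.trans (le_of_eq (by ring)))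
  refine ⟨Ω, h1, h2, fun ω hω => ?_⟩
  obtain ⟨z, hz', h5⟩ := h3 ω hω
  have hρ0 : 0 ≤ e / 4 + 2 * K * (2 * Real.pi / N) := by positivity
  refine reg_Q (hz z hz').1 (hz z hz').2 hbe (norm_rt_zpow _ _) ?_ he0.le he1 hρ0 h.rho h5
  rcases Nat.eq_zero_or_pos K with hK | hK
  · rw [hK, List.length_eq_zero_iff] at hL
    rw [hL] at hz'
    exact absurd hz' List.not_mem_nil
  · exact h.near _ (by rw [abs_le]; omega)

lemma prod_ge (L : List ℂ) {a : ℝ} (ha : 0 ≤ a) (hz : ∀ z ∈ L, a ≤ z.re) :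
    (1 + a) ^ L.length ≤ ‖(L.map fun z => 1 + z).prod‖ := by
  induction L with
  | nil => simp
  | cons z L ih =>
    rw [List.map_cons, List.prod_cons, norm_mul, List.length_cons, pow_succ, mul_comm]
    refine mul_le_mul ?_ (ih fun z' h => hz z' (List.mem_cons_of_mem _ h)) (by positivity)
      (norm_nonneg _)
    have h1 := hz z List.mem_cons_self
    have h2 := Complex.re_le_norm (1 + z)
    simp only [Complex.add_re, Complex.one_re] at h2
    linarith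

/-- a block of letters `s_2` -/
lemma Par.blockP (h : Par N K A e) : ∀ (a j : ℕ), j + a ≤ A → ∀ L : List ℂ, L.length = K →
    (∀ z ∈ L, Cone z ∧ (1 - 2 * e) ^ (j + 1) / (j + 1) ≤ z.re) →
    ∃ (c : ℂ) (Ω : List ℂ), Ω.length = K ∧
      (∀ (w : List (ℕ × Bool)) (y : ℕ → ℂ), Ev L (TW N K (List.replicate a (lett true) ++ w) y) =
        c * Ev Ω (TW N K w y)) ∧ 1 ≤ ‖c‖ ∧ (1 ≤ a → j = 0 → (1 + (1 - 2 * e)) ^ K ≤ ‖c‖) ∧
      (∀ ω ∈ Ω, Cone ω) ∧ ((1 ≤ a ∨ ∀ z ∈ L, z.re ≤ 1 + 2 * e) → ∀ ω ∈ Ω, ω.re ≤ 1 + 2 * e) := by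
  have hg := h.g_pos
  have hg1 := h.g_le
  intro a
  induction a with
  | zero =>
    intro j _ L hL hz
    exact ⟨1, L, hL, fun w y => by simp, by simp, fun h => by omega, fun ω hω => (hz ω hω).1,
      fun h => h.resolve_left (by omega)⟩
  | succ a ih =>
    intro j hj L hL hz
    set al : ℝ := (1 - 2 * e) ^ (j + 1) / (j + 1) with hal
    have hpow : 0 < (1 - 2 * e) ^ (j + 1) := pow_pos hg _
    have hpow1 : (1 - 2 * e) ^ (j + 1) ≤ 1 := pow_le_one₀ hg.le hg1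
    have hal0 : 0 < al := by positivity
    have hal1 : al / (1 + al) = (1 - 2 * e) ^ (j + 1) / (j + 1 + (1 - 2 * e) ^ (j + 1)) := by
      rw [hal]; field_simp
    have hal2 : (1 - 2 * e) ^ (j + 1) / (j + 1 + 1) ≤ al / (1 + al) := by
      rw [hal1]
      exact div_le_div_of_nonneg_left hpow.le (by positivity) (by linarith)
    have hcond : 25 / 4 * e ≤ al / (1 + al) := by
      refine le_trans ?_ hal2
      rw [le_div_iff₀ (by positivity)]
      have h1 : (1 - 2 * e) ^ A ≤ (1 - 2 * e) ^ (j + 1) :=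
        pow_le_pow_of_le_one hg.le hg1 (by omega)
      have h2 : ((j : ℝ) + 1 + 1) ≤ A + 1 := by
        have : j + 1 ≤ A := by omega
        have : ((j + 1 : ℕ) : ℝ) ≤ A := by exact_mod_cast this
        push_cast at this
        linarith
      have h3 := h.gA
      have h4 := h.e0
      have h5 : 25 / 4 * e * (j + 1 + 1) ≤ 25 / 4 * e * (A + 1) :=
        mul_le_mul_of_nonneg_left h2 (by positivity)
      linarith
    obtain ⟨Ω, h1, h2, h3⟩ := h.P L hL hal0 hcond hz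
    have h4 : ∀ ω ∈ Ω, Cone ω ∧ (1 - 2 * e) ^ (j + 1 + 1) / (((j + 1 : ℕ) : ℝ) + 1) ≤ ω.re := by
      intro ω hω
      refine ⟨(h3 ω hω).1, le_trans ?_ (h3 ω hω).2.1⟩
      have h5 := mul_le_mul_of_nonneg_left hal2 hg.le
      refine le_trans (le_of_eq ?_) h5
      push_cast
      rw [pow_succ (1 - 2 * e) (j + 1)]
      ring
    obtain ⟨c, Ω', h5, h6, h7, -, h8, h9⟩ := ih (j + 1) (by omega) Ω h1 h4
    refine ⟨(L.map fun z => 1 + z).prod * c, Ω', h5, fun w y => ?_, ?_, ?_, h8, fun _ => ?_⟩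
    · rw [List.replicate_succ, List.cons_append, mul_assoc, ← h6 w y, ← h2]
      rfl
    · rw [norm_mul]
      have h10 := prod_ge L (a := 0) le_rfl fun z hz' => hal0.le.trans (hz z hz').2
      rw [add_zero, one_pow] at h10
      exact one_le_mul_of_one_le_of_one_le h10 h7
    · intro _ hj0
      rw [norm_mul]
      have hal3 : al = 1 - 2 * e := by rw [hal, hj0]; simp
      have h10 := prod_ge L (a := 1 - 2 * e) hg.le fun z hz' => by
        rw [← hal3]; exact (hz z hz').2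
      rw [hL] at h10
      calc (1 + (1 - 2 * e)) ^ K = (1 + (1 - 2 * e)) ^ K * 1 := (mul_one _).symm
        _ ≤ _ := mul_le_mul h10 h7 zero_le_one (norm_nonneg _)
    · exact h9 (Or.inr fun ω hω => (h3 ω hω).2.2)

/-- a block of letters `s_1⁻¹` -/
lemma Par.blockQ (h : Par N K A e) : ∀ (b k : ℕ), k + b ≤ A → ∀ L : List ℂ, L.length = K →
    (∀ z ∈ L, Cone z ∧ z.re ≤ (k + 1) * (1 + 2 * e) ^ (k + 1)) →
    ∃ Ω : List ℂ, Ω.length = K ∧
      (∀ (w : List (ℕ × Bool)) (y : ℕ → ℂ), Ev L (TW N K (List.replicate b (lett false) ++ w) y) =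
        Ev Ω (TW N K w y)) ∧
      (∀ ω ∈ Ω, Cone ω) ∧ ((1 ≤ b ∨ ∀ z ∈ L, 1 - 2 * e ≤ z.re) → ∀ ω ∈ Ω, 1 - 2 * e ≤ ω.re) := by
  have he0 := h.e0
  intro b
  induction b with
  | zero =>
    intro k _ L hL hz
    exact ⟨L, hL, fun w y => by simp, fun ω hω => (hz ω hω).1, fun h => h.resolve_left (by omega)⟩
  | succ b ih =>
    intro k hk L hL hz
    set be : ℝ := (k + 1) * (1 + 2 * e) ^ (k + 1) with hbe
    have hG1 : (1 : ℝ) ≤ 1 + 2 * e := by linarith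
    have hpow1 : (1 : ℝ) ≤ (1 + 2 * e) ^ (k + 1) := one_le_pow₀ hG1
    have hbe0 : 0 < be := by positivity
    have hkA : ((k : ℝ) + 1) ≤ A := by
      have : k + 1 ≤ A := by omega
      have : ((k + 1 : ℕ) : ℝ) ≤ A := by exact_mod_cast this
      push_cast at this
      exact this
    have hbeA : be ≤ A * (1 + 2 * e) ^ A :=
      mul_le_mul hkA (pow_le_pow_right₀ hG1 (by omega)) (by positivity) (by positivity)
    have hcond : 25 / 4 * e ≤ 1 / (1 + be) := by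
      rw [le_div_iff₀ (by positivity)]
      have h3 := h.GA
      have h5 : 25 / 4 * e * (1 + be) ≤ 25 / 4 * e * (1 + A * (1 + 2 * e) ^ A) :=
        mul_le_mul_of_nonneg_left (by linarith) (by positivity)
      linarith
    obtain ⟨Ω, h1, h2, h3⟩ := h.Q L hL hcond hz
    have h4 : ∀ ω ∈ Ω, Cone ω ∧ ω.re ≤ (((k + 1 : ℕ) : ℝ) + 1) * (1 + 2 * e) ^ (k + 1 + 1) := by
      intro ω hω
      refine ⟨(h3 ω hω).1, (h3 ω hω).2.2.trans ?_⟩
      rw [pow_succ, mul_comm (1 + 2 * e) (1 + be), ← mul_assoc]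
      refine mul_le_mul_of_nonneg_right ?_ (by linarith)
      rw [hbe]
      push_cast
      nlinarith
    obtain ⟨Ω', h5, h6, h8, h9⟩ := ih (k + 1) (by omega) Ω h1 h4
    refine ⟨Ω', h5, fun w y => ?_, h8, fun _ => h9 (Or.inr fun ω hω => (h3 ω hω).2.1)⟩
    rw [List.replicate_succ, List.cons_append, ← h6 w y, ← h2]
    rfl

/-- **the growth of the words** -/
theorem Par.grow (h : Par N K A e) : ∀ (bs : List ℕ), (∀ b ∈ bs, 1 ≤ b ∧ b ≤ A) →
    ∀ (s : Bool) (L : List ℂ), L.length = K →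
    (∀ z ∈ L, Cone z ∧ (if s then 1 - 2 * e ≤ z.re else z.re ≤ 1 + 2 * e)) →
    (1 + (1 - 2 * e)) ^ (K * nP s bs) ≤
      ‖Ev L (TW N K (alt s bs) fun d => if d = 0 then 1 else 0)‖ := by
  have hg := h.g_pos
  have hg1 := h.g_le
  intro bs
  induction bs with
  | nil =>
    intro _ s L _ _
    have : Ev L (TW N K (alt s []) fun d => if d = 0 then 1 else 0) = 1 := Ev_delta L
    rw [this]
    simp [nP]
  | cons b bs ih =>
    intro hbs s L hL hz
    have hb := hbs b List.mem_cons_self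
    have ih' := ih fun b' h' => hbs b' (List.mem_cons_of_mem _ h')
    cases s with
    | true =>
      obtain ⟨c, Ω, h1, h2, -, h3, h4, h5⟩ := h.blockP b 0 (by omega) L hL (fun z hz' => by
        have := hz z hz'
        simpa using this)
      have h6 := ih' false Ω h1 (fun ω hω => ⟨h4 ω hω, by simpa using h5 (Or.inl hb.1) ω hω⟩)
      have h7 := h3 hb.1 rfl
      have e1 : alt true (b :: bs) = List.replicate b (lett true) ++ alt false bs := rfl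
      have e2 : K * nP true (b :: bs) = K + K * nP false bs := by simp [nP]; ring
      rw [e1, h2, norm_mul, e2, pow_add]
      exact mul_le_mul h7 h6 (by positivity) (norm_nonneg _)
    | false =>
      obtain ⟨Ω, h1, h2, h4, h5⟩ := h.blockQ b 0 (by omega) L hL (fun z hz' => by
        have := hz z hz'
        simpa using this)
      have h6 := ih' true Ω h1 (fun ω hω => ⟨h4 ω hω, by simpa using h5 (Or.inl hb.1) ω hω⟩)
      have e1 : alt false (b :: bs) = List.replicate b (lett false) ++ alt true bs := rfl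
      have e2 : K * nP false (b :: bs) = K * nP true bs := by simp [nP]
      rw [e1, h2, e2]
      exact h6

lemma nP_even : ∀ (r : ℕ) (s : Bool) (bs : List ℕ), bs.length = 2 * r → nP s bs = r := by
  intro r
  induction r with
  | zero =>
    intro s bs h
    have : bs = [] := List.length_eq_zero_iff.1 (by omega)
    subst this
    rfl
  | succ r ih =>
    intro s bs h
    match bs with
    | [] => simp at h
    | [_] => rw [List.length_singleton] at h; omega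
    | b :: c :: bs =>
      have h1 := ih (!!s) bs (by simp only [List.length_cons] at h; omega)
      simp only [nP]
      rw [h1]
      cases s <;> simp <;> omega

/-- the growth, from the points `1` -/
theorem Par.grow_one (h : Par N K A e) {bs : List ℕ} (hbs : ∀ b ∈ bs, 1 ≤ b ∧ b ≤ A) {r : ℕ}
    (hr : bs.length = 2 * r) (s : Bool) : (1 + (1 - 2 * e)) ^ (K * r) ≤
      ‖Ev (List.replicate K 1) (TW N K (alt s bs) fun d => if d = 0 then 1 else 0)‖ := by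
  have h1 := h.grow bs hbs s (List.replicate K 1) (by simp) (fun z hz => by
    rw [List.eq_of_mem_replicate hz]
    have := h.e0
    refine ⟨by unfold Cone; simp, ?_⟩
    split_ifs <;> simp <;> linarith)
  rwa [nP_even r s bs hr] at h1

/-- the parameters exist -/
lemma par_of {A : ℕ} (hA : 1 ≤ A) (hN : 0 < N) (hK : 60000 * (2 * A + 3) ^ 2 * K ≤ N) :
    Par N K A (1 / (8 * (2 * A + 3))) := by
  have hAR : (1 : ℝ) ≤ A := by exact_mod_cast hA
  have hNR : (0 : ℝ) < N := by exact_mod_cast hN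
  have hKR : 60000 * (2 * (A : ℝ) + 3) ^ 2 * K ≤ N := by exact_mod_cast hK
  set M : ℝ := 2 * A + 3 with hM
  have hM5 : 5 ≤ M := by rw [hM]; linarith
  have hx : 2 * (1 / (8 * M)) = 1 / (4 * M) := by field_simp; norm_num
  have hAM : A * (1 / (4 * M)) ≤ 1 / 8 := by
    rw [mul_one_div, div_le_div_iff₀ (by positivity) (by norm_num)]
    rw [hM]; linarith
  have hx1 : 1 / (4 * M) ≤ 1 / 20 := one_div_le_one_div_of_le (by norm_num) (by linarith)
  have hx0 : 0 < 1 / (4 * M) := by positivity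
  have hbern : 7 / 8 ≤ (1 - 1 / (4 * M)) ^ A := by
    have := one_add_mul_le_pow (a := -(1 / (4 * M))) (by linarith) A
    have h2 : 1 + -(1 / (4 * M)) = 1 - 1 / (4 * M) := by ring
    rw [h2] at this
    linarith
  refine ⟨hN, ?_, by positivity, ?_, ?_, ?_, ?_⟩
  · rcases Nat.eq_zero_or_pos K with h | h
    · omega
    · have h1 : 1 ≤ (2 * A + 3) ^ 2 := Nat.one_le_pow _ _ (by omega)
      nlinarith
  · exact one_div_le_one_div_of_le (by norm_num) (by linarith)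
  · have h1 : K * (2 * Real.pi / N) = 2 * Real.pi * K / N := by ring
    rw [h1, div_le_iff₀ hNR]
    have h2 : 3 * (1 / (8 * M)) ^ 2 / 400 * N = 3 / 25600 * (N / M ^ 2) := by field_simp; norm_num
    rw [h2]
    have h3 : 60000 * (K : ℝ) ≤ N / M ^ 2 := by
      rw [le_div_iff₀ (by positivity)]; linarith
    have h4 := Real.pi_lt_d2
    have h5 : (0 : ℝ) ≤ K := Nat.cast_nonneg K
    nlinarith
  · rw [hx]
    refine le_trans ?_ hbern
    have h1 : 25 / 4 * (1 / (8 * M)) * (A + 1) = 25 * (A + 1) / (32 * M) := by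
      field_simp; norm_num
    rw [h1, div_le_div_iff₀ (by positivity) (by norm_num), hM]
    linarith
  · rw [hx]
    have h1 : (1 + 1 / (4 * M)) ^ A ≤ 8 / 7 := by
      have h2 : (1 + 1 / (4 * M)) ^ A * (1 - 1 / (4 * M)) ^ A ≤ 1 := by
        rw [← mul_pow]
        refine pow_le_one₀ ?_ ?_
        · exact mul_nonneg (by linarith) (by linarith)
        · nlinarith
      have h3 : 0 < (1 + 1 / (4 * M)) ^ A := by positivity
      nlinarith
    have h2 : 25 / 4 * (1 / (8 * M)) * (1 + A * (1 + 1 / (4 * M)) ^ A) ≤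
        25 / 4 * (1 / (8 * M)) * (1 + A * (8 / 7)) := by
      refine mul_le_mul_of_nonneg_left ?_ (by positivity)
      have := mul_le_mul_of_nonneg_left h1 (by linarith : (0 : ℝ) ≤ A)
      linarith
    refine h2.trans ?_
    have h3 : 25 / 4 * (1 / (8 * M)) * (1 + A * (8 / 7)) = 25 * (1 + A * (8 / 7)) / (32 * M) := by
      field_simp; norm_num
    rw [h3, div_le_one (by positivity), hM]
    linarith

end Pool.Agent.H62.VC
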