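import Mathlib

/-!
A mean field lemma: partition functions of `K` particles with finitely many states, complex weights
without much cancellation for one particle, and pair interactions `1 + O(1 / K)`, do not vanish.
-/

set_option autoImplicit false

namespace Pool.Agent.H62.VC

open Finset

variable {S : Type} [Fintype S]

/-- the partition function of a list of particles with weights `w : S → ℂ`, the pair factor of a
particle in the state `s` and a later one in the state `t` is `U s t` -/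
noncomputable def ZL (U : S → S → ℂ) : List (S → ℂ) → ℂ
  | [] => 1
  | w :: L => ∑ s, w s * ZL U (L.map fun w' t => w' t * U s t)
termination_by L => L.length
decreasing_by simp

lemma ZL_nil (U : S → S → ℂ) : ZL U [] = 1 := by rw [ZL]

lemma ZL_cons (U : S → S → ℂ) (w : S → ℂ) (L : List (S → ℂ)) :
    ZL U (w :: L) = ∑ s, w s * ZL U (L.map fun w' t => w' t * U s t) := by rw [ZL]

/-- a particle in the middle -/
lemma ZL_mid (U : S → S → ℂ) : ∀ (n : ℕ) (A : List (S → ℂ)), A.length = n → ∀ (a : S → ℂ)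
    (B : List (S → ℂ)), ZL U (A ++ a :: B) =
      ∑ s, a s * ZL U ((A.map fun w t => w t * U t s) ++ (B.map fun w t => w t * U s t)) := by
  intro n
  induction n with
  | zero =>
    intro A hA a B
    rw [List.length_eq_zero_iff] at hA
    subst hA
    rw [List.nil_append, ZL_cons]
    rfl
  | succ n ih =>
    intro A hA a B
    cases A with
    | nil => simp at hA
    | cons w A =>
      have hA' : A.length = n := by simpa using hA
      rw [List.cons_append, ZL_cons]
      have h1 : ∀ t, ZL U ((A ++ a :: B).map fun w' t' => w' t' * U t t') =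
          ∑ s, (a s * U t s) * ZL U ((A.map fun w' t' => w' t' * U t t' * U t' s) ++
            (B.map fun w' t' => w' t' * U t t' * U s t')) := by
        intro t
        rw [List.map_append, List.map_cons, ih _ (by simpa using hA')]
        simp only [List.map_map]
        rfl
      have h2 : ∀ s, ZL U (((w :: A).map fun w t => w t * U t s) ++
          (B.map fun w t => w t * U s t)) =
          ∑ t, (w t * U t s) * ZL U ((A.map fun w' t' => w' t' * U t' s * U t t') ++
            (B.map fun w' t' => w' t' * U s t' * U t t')) := by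
        intro s
        rw [List.map_cons, List.cons_append, ZL_cons]
        simp only [List.map_append, List.map_map]
        rfl
      simp only [h1, h2, mul_sum]
      rw [sum_comm]
      refine sum_congr rfl fun s _ => sum_congr rfl fun t _ => ?_
      have e1 : (fun (w' : S → ℂ) (t' : S) => w' t' * U t t' * U t' s) =
          fun w' t' => w' t' * U t' s * U t t' := by
        funext w' t'; ring
      have e2 : (fun (w' : S → ℂ) (t' : S) => w' t' * U t t' * U s t') =
          fun w' t' => w' t' * U s t' * U t t' := by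
        funext w' t'; ring
      rw [e1, e2]
      ring

/-- a small perturbation of the weights of a particle -/
def Pt (η : ℝ) (w w' : S → ℂ) : Prop := ∀ t, ‖w' t - w t‖ ≤ η * ‖w t‖

/-- the sum of the weights is not small -/
def Cd (ρ η : ℝ) (m : ℕ) (w : S → ℂ) : Prop :=
  0 < ∑ t, ‖w t‖ ∧ (ρ + 2 * m * η) * ∑ t, ‖w t‖ ≤ ‖∑ t, w t‖

lemma Cd_mono {ρ η : ℝ} (hη : 0 ≤ η) {m : ℕ} {w : S → ℂ} (h : Cd ρ η (m + 1) w) : Cd ρ η m w := by
  refine ⟨h.1, le_trans ?_ h.2⟩
  refine mul_le_mul_of_nonneg_right ?_ h.1.le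
  push_cast
  nlinarith

lemma Cd_pt {ρ η : ℝ} (hρ : 0 < ρ) (hη : 0 ≤ η) (hη1 : η < 1) {m : ℕ}
    (hm : ρ + 2 * (m + 1) * η ≤ 1) {w w' : S → ℂ} (h : Cd ρ η (m + 1) w) (hp : Pt η w w') :
    Cd ρ η m w' := by
  obtain ⟨h1, h2⟩ := h
  have h3 : ∑ t, ‖w' t‖ ≤ (1 + η) * ∑ t, ‖w t‖ := by
    rw [mul_sum]
    refine sum_le_sum fun t _ => ?_
    have := hp t
    have h4 : ‖w' t‖ ≤ ‖w' t - w t‖ + ‖w t‖ := by
      have := norm_add_le (w' t - w t) (w t)
      simpa using this
    linarith
  have h5 : (1 - η) * ∑ t, ‖w t‖ ≤ ∑ t, ‖w' t‖ := by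
    rw [mul_sum]
    refine sum_le_sum fun t _ => ?_
    have := hp t
    have h4 : ‖w t‖ ≤ ‖w' t - w t‖ + ‖w' t‖ := by
      have := norm_sub_le (w' t) (w' t - w t)
      have e : w' t - (w' t - w t) = w t := by ring
      rw [e] at this
      linarith
    linarith
  have h6 : ‖∑ t, w t‖ - η * ∑ t, ‖w t‖ ≤ ‖∑ t, w' t‖ := by
    have e : ∑ t, w t = ∑ t, w' t - ∑ t, (w' t - w t) := by
      rw [sum_sub_distrib]; ring
    have h7 : ‖∑ t, (w' t - w t)‖ ≤ η * ∑ t, ‖w t‖ := by
      rw [mul_sum]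
      exact (norm_sum_le _ _).trans (sum_le_sum fun t _ => hp t)
    have h8 := norm_sub_le (∑ t, w' t) (∑ t, (w' t - w t))
    rw [← e] at h8
    linarith
  push_cast at h2
  refine ⟨lt_of_lt_of_le (mul_pos (by linarith) h1) h5, ?_⟩
  have hm0 : (0 : ℝ) ≤ (m : ℝ) := Nat.cast_nonneg m
  have h9 : 0 ≤ ρ + 2 * m * η := by positivity
  have h10 : (ρ + 2 * m * η) * ∑ t, ‖w' t‖ ≤ (ρ + 2 * m * η) * ((1 + η) * ∑ t, ‖w t‖) :=
    mul_le_mul_of_nonneg_left h3 h9
  have h11 : (ρ + 2 * m * η) * η ≤ 1 * η := by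
    refine mul_le_mul_of_nonneg_right ?_ hη
    nlinarith
  have h12 : (ρ + 2 * m * η) * ((1 + η) * ∑ t, ‖w t‖) ≤
      (ρ + 2 * (m + 1) * η - η) * ∑ t, ‖w t‖ := by
    rw [← mul_assoc]
    refine mul_le_mul_of_nonneg_right ?_ h1.le
    nlinarith
  linarith

omit [Fintype S] in
lemma Pt_mul {η : ℝ} {w : S → ℂ} {c : S → ℂ} (hc : ∀ t, ‖c t - 1‖ ≤ η) :
    Pt η w (fun t => w t * c t) := by
  intro t
  have e : w t * c t - w t = w t * (c t - 1) := by ring
  rw [e, norm_mul, mul_comm]
  exact mul_le_mul_of_nonneg_right (hc t) (norm_nonneg _)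

lemma forall₂_map {α : Type} {R : α → α → Prop} {f : α → α} (h : ∀ a, R a (f a)) :
    ∀ L : List α, List.Forall₂ R L (L.map f)
  | [] => List.Forall₂.nil
  | a :: L => List.Forall₂.cons (h a) (forall₂_map h L)

theorem ZL_main (U : S → S → ℂ) {ρ η : ℝ} (hρ0 : 0 < ρ) (hρ : ρ ≤ 1 / 2) (hη0 : 0 ≤ η)
    (hU : ∀ s t, ‖U s t - 1‖ ≤ η) :
    ∀ n m : ℕ, n ≤ m → m * η ≤ 3 / 25 * ρ ^ 2 → ∀ L : List (S → ℂ), L.length = n →
      (∀ w ∈ L, Cd ρ η m w) → ZL U L ≠ 0 ∧ ∀ L' : List (S → ℂ), List.Forall₂ (Pt η) L L' →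
        ‖ZL U L' - ZL U L‖ ≤ ρ / 4 * ‖ZL U L‖ := by
  intro n
  induction n with
  | zero =>
    intro m _ _ L hL _
    rw [List.length_eq_zero_iff] at hL
    subst hL
    refine ⟨by rw [ZL_nil]; exact one_ne_zero, fun L' h => ?_⟩
    cases h
    rw [sub_self, norm_zero]
    positivity
  | succ n ih =>
    intro m hnm hm L hL hw
    obtain ⟨m, rfl⟩ : ∃ m', m = m' + 1 := ⟨m - 1, by omega⟩
    have hm0 : (0 : ℝ) ≤ (m : ℝ) := Nat.cast_nonneg m
    push_cast at hm
    have hρ2 : ρ ^ 2 ≤ 1 / 4 := by nlinarith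
    have hη1 : η < 1 := by nlinarith
    have hmη : (m : ℝ) * η ≤ 3 / 25 * ρ ^ 2 := by nlinarith
    have hm1 : ρ + 2 * (m + 1) * η ≤ 1 := by nlinarith
    -- changing one particle
    have single : ∀ (A B : List (S → ℂ)) (a a' : S → ℂ), A.length + B.length = n →
        (∀ w ∈ A ++ B, Cd ρ η m w) → 0 < ∑ t, ‖a t‖ → ρ * ∑ t, ‖a t‖ ≤ ‖∑ t, a t‖ → Pt η a a' →
        ZL U (A ++ a :: B) ≠ 0 ∧
          ‖ZL U (A ++ a' :: B) - ZL U (A ++ a :: B)‖ ≤ (5 * η / (3 * ρ)) * ‖ZL U (A ++ a :: B)‖ := by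
      intro A B a a' hAB hC ha1 ha2 hp
      obtain ⟨hZ0, hpert⟩ := ih m (by omega) hmη (A ++ B) (by simpa using hAB) hC
      set Z0 := ZL U (A ++ B) with hZ0def
      have hZ0' : 0 < ‖Z0‖ := norm_pos_iff.2 hZ0
      set E : S → ℂ := fun s => ZL U ((A.map fun w t => w t * U t s) ++
        (B.map fun w t => w t * U s t)) - Z0 with hE
      have hEb : ∀ s, ‖E s‖ ≤ ρ / 4 * ‖Z0‖ := by
        intro s
        refine hpert _ ?_
        refine List.rel_append (forall₂_map (fun w => Pt_mul fun t => hU t s) A)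
          (forall₂_map (fun w => Pt_mul fun t => hU s t) B)
      have e1 : ZL U (A ++ a :: B) = ∑ s, a s * (Z0 + E s) := by
        rw [ZL_mid U _ A rfl]
        refine sum_congr rfl fun s _ => ?_
        simp only [hE]; ring
      have e2 : ZL U (A ++ a' :: B) = ∑ s, a' s * (Z0 + E s) := by
        rw [ZL_mid U _ A rfl]
        refine sum_congr rfl fun s _ => ?_
        simp only [hE]; ring
      have hlow : 3 * ρ / 4 * (∑ t, ‖a t‖) * ‖Z0‖ ≤ ‖ZL U (A ++ a :: B)‖ := by
        have e3 : (∑ s, a s) * Z0 = ZL U (A ++ a :: B) - ∑ s, a s * E s := by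
          rw [e1]
          simp only [mul_add, sum_add_distrib, sum_mul]
          ring
        have h1 : ‖∑ s, a s * E s‖ ≤ ρ / 4 * (∑ t, ‖a t‖) * ‖Z0‖ := by
          refine (norm_sum_le _ _).trans ?_
          have : ∀ s ∈ (univ : Finset S), ‖a s * E s‖ ≤ ‖a s‖ * (ρ / 4 * ‖Z0‖) := fun s _ => by
            rw [norm_mul]; exact mul_le_mul_of_nonneg_left (hEb s) (norm_nonneg _)
          refine (sum_le_sum this).trans (le_of_eq ?_)
          rw [← sum_mul]; ring
        have h2 : ‖(∑ s, a s) * Z0‖ ≤ ‖ZL U (A ++ a :: B)‖ + ‖∑ s, a s * E s‖ := by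
          rw [e3]; exact norm_sub_le _ _
        rw [norm_mul] at h2
        have h3 : ρ * (∑ t, ‖a t‖) * ‖Z0‖ ≤ ‖∑ t, a t‖ * ‖Z0‖ :=
          mul_le_mul_of_nonneg_right ha2 hZ0'.le
        nlinarith
      have hpos : 0 < 3 * ρ / 4 * (∑ t, ‖a t‖) * ‖Z0‖ := by positivity
      refine ⟨norm_pos_iff.1 (lt_of_lt_of_le hpos hlow), ?_⟩
      have hup : ‖ZL U (A ++ a' :: B) - ZL U (A ++ a :: B)‖ ≤ 5 / 4 * η * (∑ t, ‖a t‖) * ‖Z0‖ := by
        rw [e1, e2, ← sum_sub_distrib]
        refine (norm_sum_le _ _).trans ?_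
        have : ∀ s ∈ (univ : Finset S), ‖a' s * (Z0 + E s) - a s * (Z0 + E s)‖ ≤
            (η * ‖a s‖) * (5 / 4 * ‖Z0‖) := fun s _ => by
          rw [← sub_mul, norm_mul]
          have h4 : ‖Z0 + E s‖ ≤ 5 / 4 * ‖Z0‖ := by
            have := norm_add_le Z0 (E s)
            have := hEb s
            nlinarith
          exact mul_le_mul (hp s) h4 (norm_nonneg _) (by positivity)
        refine (sum_le_sum this).trans (le_of_eq ?_)
        rw [← sum_mul, ← mul_sum]; ring
      have h5 : 5 / 4 * η * (∑ t, ‖a t‖) * ‖Z0‖ =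
          5 * η / (3 * ρ) * (3 * ρ / 4 * (∑ t, ‖a t‖) * ‖Z0‖) := by
        field_simp
      rw [h5] at hup
      exact hup.trans (mul_le_mul_of_nonneg_left hlow (by positivity))
    set τ : ℝ := 5 * η / (3 * ρ) with hτ
    have hτ0 : 0 ≤ τ := by positivity
    -- changing all particles
    have chain : ∀ (A A' : List (S → ℂ)), List.Forall₂ (Pt η) A A' → ∀ P : List (S → ℂ),
        P.length + A.length = n + 1 → (∀ w ∈ P, Cd ρ η m w) → (∀ w ∈ A, Cd ρ η (m + 1) w) →
        ‖ZL U (P ++ A') - ZL U (P ++ A)‖ ≤ ((1 + τ) ^ A.length - 1) * ‖ZL U (P ++ A)‖ := by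
      intro A A' hAA
      induction hAA with
      | nil => intro P _ _ _; simp
      | @cons a a' A0 A0' hp _ ih2 =>
        intro P hlen hP hA
        have ha := hA a List.mem_cons_self
        have hCa : Cd ρ η m a' := Cd_pt hρ0 hη0 hη1 hm1 ha hp
        have hsing := single P A0 a a' (by simp only [List.length_cons] at hlen; omega)
          (fun w hw' => by
            rcases List.mem_append.1 hw' with h | h
            · exact hP w h
            · exact Cd_mono hη0 (hA w (List.mem_cons_of_mem _ h)))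
          ha.1 (by
            refine le_trans ?_ ha.2
            refine mul_le_mul_of_nonneg_right ?_ ha.1.le
            have : 0 ≤ 2 * ((m + 1 : ℕ) : ℝ) * η := by positivity
            linarith) hp
        have hih := ih2 (P ++ [a']) (by simp only [List.length_cons] at hlen; simp; omega)
          (fun w hw' => by
            rcases List.mem_append.1 hw' with h | h
            · exact hP w h
            · rw [List.mem_singleton] at h; rw [h]; exact hCa)
          (fun w h => hA w (List.mem_cons_of_mem _ h))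
        rw [List.append_assoc, List.append_assoc, List.singleton_append, List.singleton_append]
          at hih
        obtain ⟨hs0, hs1⟩ := hsing
        set X := ZL U (P ++ a' :: A0') with hX
        set Y := ZL U (P ++ a' :: A0) with hY
        set W := ZL U (P ++ a :: A0) with hW
        have hYW : ‖Y‖ ≤ (1 + τ) * ‖W‖ := by
          have := norm_add_le (Y - W) W
          rw [sub_add_cancel] at this
          linarith
        have hXW : ‖X - W‖ ≤ ‖X - Y‖ + ‖Y - W‖ := by
          have := norm_add_le (X - Y) (Y - W)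
          rwa [sub_add_sub_cancel] at this
        have h1 : 0 ≤ (1 + τ) ^ A0.length - 1 := by
          have : (1 : ℝ) ≤ (1 + τ) ^ A0.length := one_le_pow₀ (by linarith)
          linarith
        have h2 := mul_le_mul_of_nonneg_left hYW h1
        rw [List.length_cons, pow_succ]
        nlinarith
    refine ⟨?_, fun L' hL' => ?_⟩
    · cases L with
      | nil => simp at hL
      | cons a B =>
        have ha := hw a List.mem_cons_self
        have := single [] B a a (by simpa using hL) (fun w h => Cd_mono hη0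
          (hw w (List.mem_cons_of_mem _ (by simpa using h)))) ha.1 (by
            refine le_trans ?_ ha.2
            refine mul_le_mul_of_nonneg_right ?_ ha.1.le
            have : 0 ≤ 2 * ((m + 1 : ℕ) : ℝ) * η := by positivity
            linarith) (fun t => by rw [sub_self, norm_zero]; positivity)
        simpa using this.1
    · have h1 := chain L L' hL' [] (by simpa using hL) (by simp) hw
      rw [List.nil_append, List.nil_append, hL] at h1
      refine h1.trans (mul_le_mul_of_nonneg_right ?_ (norm_nonneg _))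
      have h2 : (1 + τ) ^ (n + 1) ≤ Real.exp ((n + 1 : ℕ) * τ) := by
        rw [Real.exp_nat_mul]
        exact pow_le_pow_left₀ (by linarith) (by linarith [Real.add_one_le_exp τ]) _
      have hnm' : ((n + 1 : ℕ) : ℝ) ≤ (m : ℝ) + 1 := by exact_mod_cast hnm
      have h3 : ((n + 1 : ℕ) : ℝ) * τ ≤ ρ / 5 := by
        have h4 : ((n + 1 : ℕ) : ℝ) * τ ≤ (m + 1) * τ := mul_le_mul_of_nonneg_right hnm' hτ0
        have h5 : ((m : ℝ) + 1) * τ = ((m + 1) * η) * (5 / (3 * ρ)) := by rw [hτ]; ring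
        have h6 : ((m : ℝ) + 1) * η * (5 / (3 * ρ)) ≤ 3 / 25 * ρ ^ 2 * (5 / (3 * ρ)) :=
          mul_le_mul_of_nonneg_right hm (by positivity)
        have h7 : 3 / 25 * ρ ^ 2 * (5 / (3 * ρ)) = ρ / 5 := by field_simp; norm_num
        linarith
      have h8 : Real.exp ((n + 1 : ℕ) * τ) ≤ Real.exp (ρ / 5) := Real.exp_le_exp.2 h3
      have h9 : |Real.exp (ρ / 5) - 1 - ρ / 5| ≤ (ρ / 5) ^ 2 :=
        Real.abs_exp_sub_one_sub_id_le (by rw [abs_of_pos (by positivity)]; linarith)
      have h10 := (abs_le.1 h9).2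
      nlinarith

/-! ### three states -/

/-- the partition function of particles with the weights `(α, β, γ)`; a particle in one of the last
two states multiplies the last weight of the later particles by `p` -/
noncomputable def Fl (p : ℂ) : List (ℂ × ℂ × ℂ) → ℂ
  | [] => 1
  | a :: L => a.1 * Fl p L + (a.2.1 + a.2.2) * Fl p (L.map fun b => (b.1, b.2.1, p * b.2.2))
termination_by L => L.length
decreasing_by
  · simp
  · simp

lemma Fl_nil (p : ℂ) : Fl p [] = 1 := by rw [Fl]

lemma Fl_cons (p : ℂ) (a : ℂ × ℂ × ℂ) (L : List (ℂ × ℂ × ℂ)) : Fl p (a :: L) =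
    a.1 * Fl p L + (a.2.1 + a.2.2) * Fl p (L.map fun b => (b.1, b.2.1, p * b.2.2)) := by rw [Fl]

lemma Fl_eq (p : ℂ) : ∀ (n : ℕ) (L : List (ℂ × ℂ × ℂ)), L.length = n →
    Fl p L = ZL (fun s t : Fin 3 => if s ≠ 0 ∧ t = 2 then p else 1)
      (L.map fun a => ![a.1, a.2.1, a.2.2]) := by
  intro n
  induction n with
  | zero =>
    intro L hL
    rw [List.length_eq_zero_iff] at hL
    subst hL
    rw [Fl_nil, List.map_nil, ZL_nil]
  | succ n ih =>
    intro L hL
    cases L with
    | nil => simp at hL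
    | cons a L =>
      have hL' : L.length = n := by simpa using hL
      rw [Fl_cons, List.map_cons, ZL_cons, Fin.sum_univ_three, ih L hL',
        ih _ (by rw [List.length_map]; exact hL')]
      simp only [List.map_map]
      have e0 : ((fun (w' : Fin 3 → ℂ) (t : Fin 3) => w' t *
          (if (0 : Fin 3) ≠ 0 ∧ t = 2 then p else 1)) ∘ fun a : ℂ × ℂ × ℂ => ![a.1, a.2.1, a.2.2]) =
          fun a => ![a.1, a.2.1, a.2.2] := by
        funext b t; simp
      have e1 : ((fun (w' : Fin 3 → ℂ) (t : Fin 3) => w' t *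
          (if (1 : Fin 3) ≠ 0 ∧ t = 2 then p else 1)) ∘ fun a : ℂ × ℂ × ℂ => ![a.1, a.2.1, a.2.2]) =
          (fun a => ![a.1, a.2.1, a.2.2]) ∘ fun b : ℂ × ℂ × ℂ => (b.1, b.2.1, p * b.2.2) := by
        funext b t
        fin_cases t
        · simp
        · simp
        · simp [mul_comm]
      have e2 : ((fun (w' : Fin 3 → ℂ) (t : Fin 3) => w' t *
          (if (2 : Fin 3) ≠ 0 ∧ t = 2 then p else 1)) ∘ fun a : ℂ × ℂ × ℂ => ![a.1, a.2.1, a.2.2]) =
          (fun a => ![a.1, a.2.1, a.2.2]) ∘ fun b : ℂ × ℂ × ℂ => (b.1, b.2.1, p * b.2.2) := by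
        funext b t
        fin_cases t
        · simp
        · simp
        · simp [mul_comm]
      rw [e0, e1, e2]
      simp only [Matrix.cons_val_zero, Matrix.cons_val_one, Matrix.cons_val]
      ring

theorem Fl_ne {p : ℂ} {ρ η : ℝ} (hρ0 : 0 < ρ) (hρ : ρ ≤ 1 / 2) (hη0 : 0 ≤ η) (hp : ‖p - 1‖ ≤ η)
    (L : List (ℂ × ℂ × ℂ)) (hL : L.length * η ≤ 3 / 25 * ρ ^ 2)
    (h : ∀ a ∈ L, 0 < ‖a.1‖ + ‖a.2.1‖ + ‖a.2.2‖ ∧
      (ρ + 2 * L.length * η) * (‖a.1‖ + ‖a.2.1‖ + ‖a.2.2‖) ≤ ‖a.1 + a.2.1 + a.2.2‖) :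
    Fl p L ≠ 0 := by
  rw [Fl_eq p _ L rfl]
  refine (ZL_main _ hρ0 hρ hη0 (fun s t => ?_) L.length L.length le_rfl hL _ (by simp)
    fun w hw => ?_).1
  · split_ifs
    · exact hp
    · rw [sub_self, norm_zero]; exact hη0
  · rw [List.mem_map] at hw
    obtain ⟨a, ha, rfl⟩ := hw
    have := h a ha
    unfold Cd
    rw [Fin.sum_univ_three, Fin.sum_univ_three]
    simpa using this

end Pool.Agent.H62.VC
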