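import Mathlib
import Pool.Agent.H62.VC.MF

/-!
Evaluation of symmetric multi-affine polynomials, and the factorisation of functionals.
-/

set_option autoImplicit false

namespace Pool.Agent.H62.VC

open Finset

section ring
variable {R : Type} [CommRing R]

/-- the value at the points of `L` of the symmetric multi-affine polynomial with the coefficients
`y 0, y 1, …` -/
def Ev : List R → (ℕ → R) → R
  | [], y => y 0
  | z :: L, y => Ev L y + z * Ev L (fun d => y (d + 1))

@[simp] lemma Ev_nil (y : ℕ → R) : Ev [] y = y 0 := rfl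

lemma Ev_cons (z : R) (L : List R) (y : ℕ → R) :
    Ev (z :: L) y = Ev L y + z * Ev L (fun d => y (d + 1)) := rfl

lemma Ev_congr : ∀ (L : List R) {y y' : ℕ → R}, (∀ d, d ≤ L.length → y d = y' d) →
    Ev L y = Ev L y' := by
  intro L
  induction L with
  | nil => intro y y' h; exact h 0 le_rfl
  | cons z L ih =>
    intro y y' h
    rw [Ev_cons, Ev_cons, ih fun d hd => h d (by rw [List.length_cons]; omega),
      ih (y := fun d => y (d + 1)) (y' := fun d => y' (d + 1))
        fun d hd => h (d + 1) (by rw [List.length_cons]; omega)]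

lemma Ev_mul : ∀ (L : List R) (c : R) (y : ℕ → R), Ev L (fun d => c * y d) = c * Ev L y := by
  intro L
  induction L with
  | nil => intro c y; rfl
  | cons z L ih =>
    intro c y
    rw [Ev_cons, Ev_cons, ih c y, ih c fun d => y (d + 1)]
    ring

lemma Ev_sum {ι : Type} (s : Finset ι) : ∀ (L : List R) (f : ι → ℕ → R),
    Ev L (fun d => ∑ i ∈ s, f i d) = ∑ i ∈ s, Ev L (f i) := by
  intro L
  induction L with
  | nil => intro f; rfl
  | cons z L ih =>
    intro f
    simp only [Ev_cons]
    rw [ih, ih fun i d => f i (d + 1), sum_add_distrib, mul_sum]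

/-- the coefficients of the functional `Ev L` (elementary symmetric functions) -/
def ec : List R → ℕ → R
  | [], e => if e = 0 then 1 else 0
  | z :: L, e => ec L e + z * (if e = 0 then 0 else ec L (e - 1))

lemma ec_gt : ∀ (L : List R) (e : ℕ), L.length < e → ec L e = 0 := by
  intro L
  induction L with
  | nil => intro e he; simp at he; simp [ec]; omega
  | cons z L ih =>
    intro e he
    rw [List.length_cons] at he
    rw [ec, ih e (by omega), if_neg (by omega), ih (e - 1) (by omega)]
    ring

lemma ec_zero : ∀ L : List R, ec L 0 = 1 := by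
  intro L
  induction L with
  | nil => simp [ec]
  | cons z L ih => rw [ec, ih]; simp

lemma Ev_eq : ∀ (L : List R) (y : ℕ → R), Ev L y = ∑ e ∈ range (L.length + 1), ec L e * y e := by
  intro L
  induction L with
  | nil => intro y; simp [ec]
  | cons z L ih =>
    intro y
    rw [Ev_cons, ih, ih, List.length_cons]
    have h1 : ∑ e ∈ range (L.length + 1 + 1), ec (z :: L) e * y e =
        ∑ e ∈ range (L.length + 1 + 1), ec L e * y e +
        z * ∑ e ∈ range (L.length + 1 + 1), (if e = 0 then 0 else ec L (e - 1)) * y e := by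
      rw [mul_sum, ← sum_add_distrib]
      refine sum_congr rfl fun e _ => ?_
      rw [ec]; ring
    rw [h1, sum_range_succ (fun e => ec L e * y e) (L.length + 1), ec_gt L _ (Nat.lt_succ_self _),
      zero_mul, add_zero, sum_range_succ' (fun e => (if e = 0 then 0 else ec L (e - 1)) * y e)]
    simp

lemma Ev_map {T : Type} [CommRing T] (f : R →+* T) : ∀ (L : List R) (y : ℕ → R),
    Ev (L.map f) (fun d => f (y d)) = f (Ev L y) := by
  intro L
  induction L with
  | nil => intro y; rfl
  | cons z L ih =>
    intro y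
    rw [List.map_cons, Ev_cons, Ev_cons, ih, ih fun d => y (d + 1), map_add, map_mul]

lemma ec_map {T : Type} [CommRing T] (f : R →+* T) : ∀ (L : List R) (e : ℕ),
    ec (L.map f) e = f (ec L e) := by
  intro L
  induction L with
  | nil => intro e; simp only [List.map_nil, ec]; split_ifs <;> simp
  | cons z L ih =>
    intro e
    rw [List.map_cons, ec, ec, ih, map_add, map_mul]
    split_ifs
    · simp
    · rw [ih]

/-- products of linear factors -/
lemma Ev_prod (x : R) : ∀ L : List R, Ev L (fun d => x ^ (L.length - d)) =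
    (L.map fun z => x + z).prod := by
  intro L
  induction L with
  | nil => simp
  | cons z L ih =>
    rw [Ev_cons, List.map_cons, List.prod_cons, List.length_cons, ← ih]
    have h1 : Ev L (fun d => x ^ (L.length + 1 - d)) = x * Ev L (fun d => x ^ (L.length - d)) := by
      rw [← Ev_mul]
      refine Ev_congr L fun d hd => ?_
      have : L.length + 1 - d = (L.length - d) + 1 := by omega
      rw [this, pow_succ]; ring
    have h2 : Ev L (fun d => x ^ (L.length + 1 - (d + 1))) = Ev L (fun d => x ^ (L.length - d)) :=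
      Ev_congr L fun d hd => by congr 1; omega
    rw [h1, h2]; ring

lemma Ev_one : ∀ L : List R, Ev L (fun _ => 1) = (L.map fun z => 1 + z).prod := by
  intro L
  rw [← Ev_prod]
  exact Ev_congr L fun d _ => by rw [one_pow]

lemma Ev_delta : ∀ L : List R, Ev L (fun d => if d = 0 then 1 else 0) = 1 := by
  intro L
  rw [Ev_eq, sum_range_succ']
  simp [ec_zero]

end ring

/-! ### factorisation -/

/-- A functional of the coefficients is a multiple of an evaluation, at the negatives of the roots of
the polynomial of its values on powers. -/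
theorem factor (K : ℕ) (b : ℕ → ℂ) (hb : b 0 ≠ 0) : ∃ Ω : List ℂ, Ω.length = K ∧
    (∀ y : ℕ → ℂ, ∑ e ∈ range (K + 1), b e * y e = b 0 * Ev Ω y) ∧
    ∀ ω ∈ Ω, ∑ e ∈ range (K + 1), b e * (-ω) ^ (K - e) = 0 := by
  classical
  set f : Polynomial ℂ := ∑ e ∈ range (K + 1), Polynomial.C (b e) * Polynomial.X ^ (K - e) with hf
  have hcoeff : ∀ e, e ≤ K → f.coeff (K - e) = b e := by
    intro e he
    rw [hf, Polynomial.finset_sum_coeff, sum_eq_single e]
    · rw [Polynomial.coeff_C_mul, Polynomial.coeff_X_pow, if_pos rfl, mul_one]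
    · intro e' he' hne
      rw [mem_range] at he'
      rw [Polynomial.coeff_C_mul, Polynomial.coeff_X_pow, if_neg (by omega), mul_zero]
    · intro h; exact absurd (mem_range.2 (by omega)) h
  have hdeg : f.natDegree ≤ K := by
    refine Polynomial.natDegree_sum_le_of_forall_le _ _ fun e _ => ?_
    exact (Polynomial.natDegree_C_mul_X_pow_le _ _).trans (by omega)
  have hK : f.coeff K = b 0 := by simpa using hcoeff 0 (Nat.zero_le _)
  have hdeg' : f.natDegree = K := by
    refine le_antisymm hdeg (Polynomial.le_natDegree_of_ne_zero ?_)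
    rw [hK]; exact hb
  have hlead : f.leadingCoeff = b 0 := by rw [Polynomial.leadingCoeff, hdeg', hK]
  have hf0 : f ≠ 0 := by
    intro h
    rw [h, Polynomial.leadingCoeff_zero] at hlead
    exact hb hlead.symm
  have hspl : f.Splits := IsAlgClosed.splits f
  have hcard : f.roots.card = K := by
    rw [← hdeg']; exact Polynomial.splits_iff_card_roots.1 hspl
  have hprod : Polynomial.C f.leadingCoeff * (f.roots.map fun a => Polynomial.X - Polynomial.C a).prod
      = f := Polynomial.C_leadingCoeff_mul_prod_multiset_X_sub_C (by rw [hcard, hdeg'])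
  set Ω : List ℂ := f.roots.toList.map fun a => -a with hΩ
  have hlen : Ω.length = K := by rw [hΩ, List.length_map, Multiset.length_toList, hcard]
  have hlen' : (Ω.map Polynomial.C).length = K := by rw [List.length_map, hlen]
  have h1 : f = Polynomial.C (b 0) * Ev (Ω.map Polynomial.C) (fun d => Polynomial.X ^ (K - d)) := by
    have h2 := Ev_prod (Polynomial.X : Polynomial ℂ) (Ω.map Polynomial.C)
    rw [hlen'] at h2
    rw [h2]
    conv_lhs => rw [← hprod, hlead]
    congr 1
    rw [hΩ, List.map_map, List.map_map]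
    conv_lhs => rw [← Multiset.coe_toList f.roots]
    rw [Multiset.map_coe, Multiset.prod_coe]
    congr 1
    refine List.map_congr_left fun a _ => ?_
    simp [sub_eq_add_neg]
  have h2 : ∀ e, e ≤ K → b e = b 0 * ec Ω e := by
    intro e he
    have h3 : f = ∑ e ∈ range (K + 1), Polynomial.C (b 0 * ec Ω e) * Polynomial.X ^ (K - e) := by
      rw [h1, Ev_eq, hlen', mul_sum]
      refine sum_congr rfl fun e _ => ?_
      rw [ec_map, Polynomial.C_mul]; ring
    have h4 : f.coeff (K - e) = b 0 * ec Ω e := by
      rw [h3, Polynomial.finset_sum_coeff, sum_eq_single e]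
      · rw [Polynomial.coeff_C_mul, Polynomial.coeff_X_pow, if_pos rfl, mul_one]
      · intro e' he' hne
        rw [mem_range] at he'
        rw [Polynomial.coeff_C_mul, Polynomial.coeff_X_pow, if_neg (by omega), mul_zero]
      · intro h; exact absurd (mem_range.2 (by omega)) h
    rw [← h4, hcoeff e he]
  refine ⟨Ω, hlen, fun y => ?_, fun ω hω => ?_⟩
  · rw [Ev_eq, hlen, mul_sum]
    refine sum_congr rfl fun e he => ?_
    rw [mem_range] at he
    rw [h2 e (by omega)]; ring
  · rw [hΩ, List.mem_map] at hω
    obtain ⟨a, ha, rfl⟩ := hω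
    rw [Multiset.mem_toList, Polynomial.mem_roots hf0, Polynomial.IsRoot.def] at ha
    rw [neg_neg, ← ha, hf, Polynomial.eval_finset_sum]
    refine sum_congr rfl fun e _ => ?_
    simp

/-! ### the partition functions -/

/-- the polynomial of `s_2` -/
lemma SP_eq (p x : ℂ) : ∀ (L : List ℂ) (ξ : ℂ),
    Ev L (fun d => x ^ (L.length - d) * ∏ r ∈ range d, (x + ξ * p ^ r)) =
      Fl p (L.map fun z => (x, z * x, z * ξ)) := by
  intro L
  induction L with
  | nil => intro ξ; simp [Fl_nil]
  | cons z L ih =>
    intro ξ
    rw [List.map_cons, Fl_cons, Ev_cons, List.map_map]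
    have e1 : (fun b : ℂ × ℂ × ℂ => (b.1, b.2.1, p * b.2.2)) ∘ (fun z => (x, z * x, z * ξ)) =
        fun z => (x, z * x, z * (p * ξ)) := by
      funext z; simp only [Function.comp]; congr 2; ring
    rw [e1, ← ih ξ, ← ih (p * ξ), List.length_cons]
    have h1 : Ev L (fun d => x ^ (L.length + 1 - d) * ∏ r ∈ range d, (x + ξ * p ^ r)) =
        x * Ev L (fun d => x ^ (L.length - d) * ∏ r ∈ range d, (x + ξ * p ^ r)) := by
      rw [← Ev_mul]
      refine Ev_congr L fun d hd => ?_
      have : L.length + 1 - d = (L.length - d) + 1 := by omega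
      rw [this, pow_succ]; ring
    have h2 : Ev L (fun d => x ^ (L.length + 1 - (d + 1)) * ∏ r ∈ range (d + 1), (x + ξ * p ^ r)) =
        (x + ξ) * Ev L (fun d => x ^ (L.length - d) * ∏ r ∈ range d, (x + p * ξ * p ^ r)) := by
      rw [← Ev_mul]
      refine Ev_congr L fun d hd => ?_
      have : L.length + 1 - (d + 1) = L.length - d := by omega
      rw [this, prod_range_succ', pow_zero, mul_one]
      have e2 : ∀ r ∈ range d, x + ξ * p ^ (r + 1) = x + p * ξ * p ^ r := fun r _ => by
        rw [pow_succ]; ring
      rw [prod_congr rfl e2]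
      ring
    rw [h1, h2]
    ring

/-- the polynomial of `s_1⁻¹` -/
lemma SQ_eq (p x : ℂ) : ∀ (L : List ℂ) (ξ : ℂ),
    Ev L (fun d => ∏ r ∈ range (L.length - d), (1 + ξ * x * p ^ r)) =
      Fl p (L.map fun z => (z, 1, ξ * x)) := by
  intro L
  induction L with
  | nil => intro ξ; simp [Fl_nil]
  | cons z L ih =>
    intro ξ
    rw [List.map_cons, Fl_cons, Ev_cons, List.map_map]
    have e1 : (fun b : ℂ × ℂ × ℂ => (b.1, b.2.1, p * b.2.2)) ∘ (fun z : ℂ => (z, (1 : ℂ), ξ * x)) =
        fun z => (z, 1, (p * ξ) * x) := by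
      funext z; simp only [Function.comp]; congr 2; ring
    rw [e1, ← ih ξ, ← ih (p * ξ), List.length_cons]
    have h1 : Ev L (fun d => ∏ r ∈ range (L.length + 1 - d), (1 + ξ * x * p ^ r)) =
        (1 + ξ * x) * Ev L (fun d => ∏ r ∈ range (L.length - d), (1 + p * ξ * x * p ^ r)) := by
      rw [← Ev_mul]
      refine Ev_congr L fun d hd => ?_
      have : L.length + 1 - d = (L.length - d) + 1 := by omega
      rw [this, prod_range_succ', pow_zero, mul_one]
      have e2 : ∀ r ∈ range (L.length - d), 1 + ξ * x * p ^ (r + 1) = 1 + p * ξ * x * p ^ r :=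
        fun r _ => by rw [pow_succ]; ring
      rw [prod_congr rfl e2]
      ring
    have h2 : Ev L (fun d => ∏ r ∈ range (L.length + 1 - (d + 1)), (1 + ξ * x * p ^ r)) =
        Ev L (fun d => ∏ r ∈ range (L.length - d), (1 + ξ * x * p ^ r)) :=
      Ev_congr L fun d hd => by
        have : L.length + 1 - (d + 1) = L.length - d := by omega
        rw [this]
    rw [h1, h2]
    ring

end Pool.Agent.H62.VC
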