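import Pool.Agent.H62.VC.Ev
import Pool.Graph.R_pool_sql_team_seeded_843ab51a.V11115.VC.I

/-!
The `q`-binomial theorem at the root of unity, and the transposed action of `s_2` and `s_1⁻¹` on
evaluations.
-/

set_option autoImplicit false

namespace Pool.Agent.H62.VC

open Finset Pool.Agent.H550R3.Jones Pool.Agent.W715.VC Pool.Agent.V11115.VC

variable {N : ℕ}

/-- the complex Gaussian binomial -/
noncomputable def qc (N : ℕ) (d e : ℕ) : ℂ := ((qb N d e : ℝ) : ℂ)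

lemma qc_zero (d : ℕ) : qc N d 0 = 1 := by unfold qc; rw [qb_zero]; simp

lemma qc_gt {d e : ℕ} (h : d < e) : qc N d e = 0 := by unfold qc; rw [qb_gt h]; simp

lemma qc_self {d : ℕ} (h : d < N) : qc N d d = 1 := by unfold qc; rw [qb_self h]; simp

lemma sn_br (k : ℤ) : ((sn N k : ℝ) : ℂ) = br (rt N) k / (2 * Complex.I) := by
  rw [br_rt]
  have := Complex.I_ne_zero
  field_simp

/-- Pascal's rule -/
lemma pascal {d e : ℕ} (hd : d + 1 < N) (he : e ≤ d) : qc N (d + 1) (e + 1) =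
    rt N ^ (-((e : ℤ) + 1)) * qc N d (e + 1) + rt N ^ ((d : ℤ) - e) * qc N d e := by
  have h0 := rt_ne N
  have h1 := qb_shift (N := N) ((d + 1 : ℕ) : ℤ) (e + 1)
  have h2 := qb_shift (N := N) ((d + 1 : ℕ) : ℤ) e
  have h3 := qb_succ (N := N) ((d + 1 : ℕ) : ℤ) (k := e) (by omega)
  have c1 : ((d + 1 : ℕ) : ℤ) - 1 = (d : ℤ) := by push_cast; ring
  have c2 : ((d + 1 : ℕ) : ℤ) - ((e + 1 : ℕ) : ℤ) = (d : ℤ) - e := by push_cast; ring
  rw [c1, c2] at h1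
  rw [c1] at h2
  have hp : sn N ((d + 1 : ℕ) : ℤ) ≠ 0 := (sn_pos (by omega) (by omega)).ne'
  have hp' : ((sn N ((d + 1 : ℕ) : ℤ) : ℝ) : ℂ) ≠ 0 := by exact_mod_cast hp
  have h1' : ((sn N ((d + 1 : ℕ) : ℤ) : ℝ) : ℂ) * qc N d (e + 1) =
      ((sn N ((d : ℤ) - e) : ℝ) : ℂ) * qc N (d + 1) (e + 1) := by
    unfold qc; exact_mod_cast h1
  have h4 : sn N ((d + 1 : ℕ) : ℤ) * qb N d e = sn N ((e : ℤ) + 1) * qb N ((d + 1 : ℕ) : ℤ) (e + 1) := by
    rw [h2, h3]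
  have h4' : ((sn N ((d + 1 : ℕ) : ℤ) : ℝ) : ℂ) * qc N d e =
      ((sn N ((e : ℤ) + 1) : ℝ) : ℂ) * qc N (d + 1) (e + 1) := by
    unfold qc; exact_mod_cast h4
  apply mul_left_cancel₀ hp'
  have h5 : rt N ^ (-((e : ℤ) + 1)) * ((sn N ((d : ℤ) - e) : ℝ) : ℂ) +
      rt N ^ ((d : ℤ) - e) * ((sn N ((e : ℤ) + 1) : ℝ) : ℂ) = ((sn N ((d + 1 : ℕ) : ℤ) : ℝ) : ℂ) := by
    rw [sn_br, sn_br, sn_br]
    unfold br
    have q1 : rt N ^ (-((e : ℤ) + 1)) * rt N ^ ((d : ℤ) - e) =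
        rt N ^ ((d : ℤ) - e) * rt N ^ (-((e : ℤ) + 1)) := mul_comm _ _
    have q2 : rt N ^ (-((e : ℤ) + 1)) * rt N ^ (-((d : ℤ) - e)) = rt N ^ (-((d + 1 : ℕ) : ℤ)) := by
      rw [← zpow_add₀ h0]; congr 1; push_cast; ring
    have q3 : rt N ^ ((d : ℤ) - e) * rt N ^ ((e : ℤ) + 1) = rt N ^ ((d + 1 : ℕ) : ℤ) := by
      rw [← zpow_add₀ h0]; congr 1; push_cast; ring
    linear_combination (1 / (2 * Complex.I)) * (q1 - q2 + q3)
  linear_combination (-(rt N ^ (-((e : ℤ) + 1)))) * h1' - rt N ^ ((d : ℤ) - e) * h4' -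
    qc N (d + 1) (e + 1) * h5

/-- **the `q`-binomial theorem** -/
lemma qbinom_hom (x : ℂ) : ∀ (d : ℕ), d < N → ∀ τ : ℂ,
    ∑ e ∈ range (d + 1), qc N d e * τ ^ e * x ^ (d - e) =
      ∏ r ∈ range d, (x + τ * rt N ^ (2 * (r : ℤ) + 1 - d)) := by
  have h0 := rt_ne N
  intro d
  induction d with
  | zero => intro _ τ; simp [qc_zero]
  | succ d ih =>
    intro hd τ
    have ih' := ih (by omega) (τ * rt N ^ (-1 : ℤ))
    rw [prod_range_succ]
    have e1 : ∏ r ∈ range d, (x + τ * rt N ^ (2 * (r : ℤ) + 1 - ((d + 1 : ℕ) : ℤ))) =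
        ∏ r ∈ range d, (x + τ * rt N ^ (-1 : ℤ) * rt N ^ (2 * (r : ℤ) + 1 - d)) := by
      refine prod_congr rfl fun r _ => ?_
      rw [mul_assoc, ← zpow_add₀ h0]
      congr 3
      push_cast; ring
    have e2 : rt N ^ (2 * (d : ℤ) + 1 - ((d + 1 : ℕ) : ℤ)) = rt N ^ (d : ℤ) := by
      congr 1; push_cast; ring
    rw [e1, ← ih', e2, sum_range_succ']
    have e3 : ∀ e ∈ range (d + 1), qc N (d + 1) (e + 1) * τ ^ (e + 1) * x ^ (d + 1 - (e + 1)) =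
        rt N ^ (-((e : ℤ) + 1)) * qc N d (e + 1) * τ ^ (e + 1) * x ^ (d - e) +
          (qc N d e * (τ * rt N ^ (-1 : ℤ)) ^ e * x ^ (d - e)) * (τ * rt N ^ (d : ℤ)) := by
      intro e he
      rw [mem_range] at he
      have f1 : d + 1 - (e + 1) = d - e := by omega
      have f2 : (τ * rt N ^ (-1 : ℤ)) ^ e * rt N ^ (d : ℤ) = τ ^ e * rt N ^ ((d : ℤ) - e) := by
        rw [mul_pow, mul_assoc, ← zpow_natCast (rt N ^ (-1 : ℤ)) e, ← zpow_mul, ← zpow_add₀ h0]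
        congr 2; ring
      rw [pascal hd (by omega), f1]
      linear_combination (-(qc N d e * x ^ (d - e) * τ)) * f2
    have e4 : ∑ e ∈ range (d + 1), rt N ^ (-((e : ℤ) + 1)) * qc N d (e + 1) * τ ^ (e + 1) *
        x ^ (d - e) + x ^ (d + 1) =
        (∑ e ∈ range (d + 1), qc N d e * (τ * rt N ^ (-1 : ℤ)) ^ e * x ^ (d - e)) * x := by
      rw [sum_range_succ, qc_gt (Nat.lt_succ_self d), sum_range_succ' (fun e => qc N d e *
        (τ * rt N ^ (-1 : ℤ)) ^ e * x ^ (d - e)), qc_zero, add_mul, sum_mul]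
      have f3 : ∀ e ∈ range d, rt N ^ (-((e : ℤ) + 1)) * qc N d (e + 1) * τ ^ (e + 1) * x ^ (d - e) =
          qc N d (e + 1) * (τ * rt N ^ (-1 : ℤ)) ^ (e + 1) * x ^ (d - (e + 1)) * x := by
        intro e he
        rw [mem_range] at he
        have g1 : (τ * rt N ^ (-1 : ℤ)) ^ (e + 1) = τ ^ (e + 1) * rt N ^ (-((e : ℤ) + 1)) := by
          rw [mul_pow, ← zpow_natCast (rt N ^ (-1 : ℤ)), ← zpow_mul]
          congr 2; push_cast; ring
        have g2 : x ^ (d - e) = x ^ (d - (e + 1)) * x := by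
          have : d - e = (d - (e + 1)) + 1 := by omega
          rw [this, pow_succ]
        rw [g1, g2]; ring
      rw [sum_congr rfl f3]
      rw [pow_zero, Nat.sub_zero, pow_succ]
      ring
    rw [sum_congr rfl e3, sum_add_distrib, ← sum_mul, qc_zero, pow_zero, Nat.sub_zero, one_mul,
      one_mul, mul_add, ← e4]
    ring

/-- the operator of `s_2` -/
noncomputable def TP (N K : ℕ) (y : ℕ → ℂ) (d : ℕ) : ℂ :=
  ∑ e ∈ range (K + 1), rt N ^ (-((e : ℤ) * (K - d))) * qc N d e * y e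

/-- the operator of `s_1⁻¹` -/
noncomputable def TQ (N K : ℕ) (y : ℕ → ℂ) (d : ℕ) : ℂ :=
  ∑ e ∈ range (K + 1), rt N ^ ((d : ℤ) * (K - e)) * qc N (K - d) (K - e) * y e

lemma TP_pow {K : ℕ} (hK : K < N) (x : ℂ) {d : ℕ} (hd : d ≤ K) :
    TP N K (fun e => x ^ (K - e)) d =
      x ^ (K - d) * ∏ r ∈ range d, (x + rt N ^ (1 - (K : ℤ)) * (rt N ^ 2) ^ r) := by
  have h0 := rt_ne N
  unfold TP
  have e0 : K + 1 = (d + 1) + (K - d) := by omega
  rw [e0, sum_range_add]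
  have e1 : ∑ e ∈ range (K - d), rt N ^ (-(((d + 1 + e : ℕ) : ℤ) * (K - d))) *
      qc N d (d + 1 + e) * x ^ (K - (d + 1 + e)) = 0 :=
    sum_eq_zero fun e _ => by rw [qc_gt (by omega)]; ring
  rw [e1, add_zero]
  have h1 := qbinom_hom (N := N) x d (by omega) (rt N ^ (-((K : ℤ) - d)))
  have e2 : ∏ r ∈ range d, (x + rt N ^ (-((K : ℤ) - d)) * rt N ^ (2 * (r : ℤ) + 1 - d)) =
      ∏ r ∈ range d, (x + rt N ^ (1 - (K : ℤ)) * (rt N ^ 2) ^ r) := by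
    refine prod_congr rfl fun r _ => ?_
    have : (rt N ^ 2) ^ r = rt N ^ (2 * (r : ℤ)) := by
      rw [← pow_mul, ← zpow_natCast]; push_cast; rfl
    rw [this, ← zpow_add₀ h0, ← zpow_add₀ h0]
    congr 2; ring
  rw [← e2, ← h1, mul_sum]
  refine sum_congr rfl fun e he => ?_
  rw [mem_range] at he
  have e3 : x ^ (K - e) = x ^ (K - d) * x ^ (d - e) := by
    rw [← pow_add]; congr 1; omega
  have e4 : rt N ^ (-((e : ℤ) * (K - d))) = (rt N ^ (-((K : ℤ) - d))) ^ e := by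
    rw [← zpow_natCast (rt N ^ (-((K : ℤ) - d))), ← zpow_mul]; congr 1; ring
  beta_reduce
  rw [e3, e4]; ring

lemma TQ_pow {K : ℕ} (hK : K < N) (x : ℂ) {d : ℕ} (hd : d ≤ K) :
    TQ N K (fun e => x ^ (K - e)) d =
      ∏ r ∈ range (K - d), (1 + rt N ^ ((K : ℤ) - 1) * x * ((rt N ^ 2)⁻¹) ^ r) := by
  have h0 := rt_ne N
  unfold TQ
  rw [← sum_range_reflect]
  have e0 : K + 1 = (K - d + 1) + d := by omega
  have e0' : ∑ j ∈ range (K + 1), rt N ^ ((d : ℤ) * (K - ((K + 1 - 1 - j : ℕ) : ℤ))) *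
      qc N (K - d) (K - (K + 1 - 1 - j)) * x ^ (K - (K + 1 - 1 - j)) =
      ∑ j ∈ range (K + 1), qc N (K - d) j * (rt N ^ (d : ℤ) * x) ^ j * 1 ^ (K - d - j) := by
    refine sum_congr rfl fun j hj => ?_
    rw [mem_range] at hj
    have f1 : K - (K + 1 - 1 - j) = j := by omega
    have f2 : (K : ℤ) - ((K + 1 - 1 - j : ℕ) : ℤ) = j := by omega
    rw [f1, f2, one_pow, mul_one, mul_pow, ← zpow_natCast (rt N ^ (d : ℤ)), ← zpow_mul]
    ring
  rw [e0', e0, sum_range_add]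
  have e1 : ∑ j ∈ range d, qc N (K - d) (K - d + 1 + j) *
      (rt N ^ (d : ℤ) * x) ^ (K - d + 1 + j) * 1 ^ (K - d - (K - d + 1 + j)) = 0 :=
    sum_eq_zero fun e _ => by rw [qc_gt (by omega)]; ring
  rw [e1, add_zero, qbinom_hom (N := N) 1 (K - d) (by omega) (rt N ^ (d : ℤ) * x),
    ← prod_range_reflect]
  refine prod_congr rfl fun r hr => ?_
  rw [mem_range] at hr
  have f3 : ((rt N ^ 2)⁻¹) ^ r = rt N ^ (-(2 * (r : ℤ))) := by
    rw [inv_pow, ← pow_mul, ← zpow_natCast, ← _root_.zpow_neg]; push_cast; rfl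
  have f4 : rt N ^ (d : ℤ) * x * rt N ^ (2 * ((K - d - 1 - r : ℕ) : ℤ) + 1 - ((K - d : ℕ) : ℤ)) =
      rt N ^ ((K : ℤ) - 1) * x * rt N ^ (-(2 * (r : ℤ))) := by
    have g1 : rt N ^ (d : ℤ) * rt N ^ (2 * ((K - d - 1 - r : ℕ) : ℤ) + 1 - ((K - d : ℕ) : ℤ)) =
        rt N ^ ((K : ℤ) - 1) * rt N ^ (-(2 * (r : ℤ))) := by
      rw [← zpow_add₀ h0, ← zpow_add₀ h0]
      congr 1
      have h1 : ((K - d - 1 - r : ℕ) : ℤ) = (K : ℤ) - d - 1 - r := by omega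
      have h2 : ((K - d : ℕ) : ℤ) = (K : ℤ) - d := by omega
      rw [h1, h2]; ring
    linear_combination x * g1
  rw [f3, f4]

/-- `Ev L` after `TP` -/
lemma Ev_TP (K : ℕ) (L : List ℂ) (y : ℕ → ℂ) : Ev L (TP N K y) =
    ∑ e ∈ range (K + 1), Ev L (fun d => rt N ^ (-((e : ℤ) * (K - d))) * qc N d e) * y e := by
  unfold TP
  rw [Ev_sum (range (K + 1)) L fun e d => rt N ^ (-((e : ℤ) * (K - d))) * qc N d e * y e]
  refine sum_congr rfl fun e _ => ?_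
  rw [mul_comm, ← Ev_mul]
  congr 1
  funext d; ring

lemma Ev_TQ (K : ℕ) (L : List ℂ) (y : ℕ → ℂ) : Ev L (TQ N K y) =
    ∑ e ∈ range (K + 1), Ev L (fun d => rt N ^ ((d : ℤ) * (K - e)) * qc N (K - d) (K - e)) * y e := by
  unfold TQ
  rw [Ev_sum (range (K + 1)) L fun e d => rt N ^ ((d : ℤ) * (K - e)) * qc N (K - d) (K - e) * y e]
  refine sum_congr rfl fun e _ => ?_
  rw [mul_comm, ← Ev_mul]
  congr 1
  funext d; ring

/-- the transposed action of `s_2` on evaluations -/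
theorem stepP {K : ℕ} (hK : K < N) (L : List ℂ) (hL : L.length = K)
    (hne : ∀ z ∈ L, z ≠ 0 ∧ 1 + z ≠ 0) {ρ η : ℝ} (hρ0 : 0 < ρ) (hρ : ρ ≤ 1 / 2) (hη0 : 0 ≤ η)
    (hη : ‖rt N ^ 2 - 1‖ ≤ η) (hKη : K * η ≤ 3 / 25 * ρ ^ 2) :
    ∃ Ω : List ℂ, Ω.length = K ∧
      (∀ y : ℕ → ℂ, Ev L (TP N K y) = (L.map fun z => 1 + z).prod * Ev Ω y) ∧
      ∀ ω ∈ Ω, ∃ z ∈ L, ‖z * rt N ^ (1 - (K : ℤ)) - (1 + z) * ω‖ <
        (ρ + 2 * K * η) * (‖ω‖ + ‖z‖ * ‖ω‖ + ‖z‖) := by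
  set b : ℕ → ℂ := fun e => Ev L (fun d => rt N ^ (-((e : ℤ) * (K - d))) * qc N d e) with hb
  have hb0 : b 0 = (L.map fun z => 1 + z).prod := by
    rw [← Ev_one]
    simp only [hb]
    congr 1
    funext d
    rw [qc_zero]; simp
  have hb0' : b 0 ≠ 0 := by
    rw [hb0]
    intro h
    rw [List.prod_eq_zero_iff, List.mem_map] at h
    obtain ⟨z, hz, hz0⟩ := h
    exact (hne z hz).2 hz0
  obtain ⟨Ω, h1, h2, h3⟩ := factor K b hb0'
  refine ⟨Ω, h1, fun y => ?_, fun ω hω => ?_⟩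
  · rw [Ev_TP, ← hb0]; exact h2 y
  · have h4 := h3 ω hω
    have h5 : Ev L (TP N K fun e => (-ω) ^ (K - e)) = 0 := by rw [Ev_TP]; exact h4
    have h6 : Ev L (TP N K fun e => (-ω) ^ (K - e)) =
        Fl (rt N ^ 2) (L.map fun z => (-ω, z * -ω, z * rt N ^ (1 - (K : ℤ)))) := by
      rw [← SP_eq]
      refine Ev_congr L fun d hd => ?_
      rw [TP_pow hK _ (by omega), hL]
    rw [h6] at h5
    by_contra hcon
    push Not at hcon
    refine Fl_ne hρ0 hρ hη0 hη _ (by rw [List.length_map, hL]; exact hKη) ?_ h5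
    intro a ha
    rw [List.mem_map] at ha
    obtain ⟨z, hz, rfl⟩ := ha
    have h7 := hcon z hz
    have h8 := (hne z hz).1
    simp only [norm_neg, norm_mul, norm_rt_zpow, mul_one, List.length_map, hL]
    refine ⟨?_, ?_⟩
    · have := norm_pos_iff.2 h8
      positivity
    · refine h7.trans (le_of_eq ?_)
      congr 1
      ring

/-- the transposed action of `s_1⁻¹` on evaluations -/
theorem stepQ {K : ℕ} (hK : K < N) (L : List ℂ) (hL : L.length = K)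
    {ρ η : ℝ} (hρ0 : 0 < ρ) (hρ : ρ ≤ 1 / 2) (hη0 : 0 ≤ η)
    (hη : ‖rt N ^ 2 - 1‖ ≤ η) (hKη : K * η ≤ 3 / 25 * ρ ^ 2) :
    ∃ Ω : List ℂ, Ω.length = K ∧
      (∀ y : ℕ → ℂ, Ev L (TQ N K y) = Ev Ω y) ∧
      ∀ ω ∈ Ω, ∃ z ∈ L, ‖(1 + z) - rt N ^ ((K : ℤ) - 1) * ω‖ <
        (ρ + 2 * K * η) * (‖z‖ + 1 + ‖ω‖) := by
  set b : ℕ → ℂ := fun e => Ev L (fun d => rt N ^ ((d : ℤ) * (K - e)) * qc N (K - d) (K - e)) with hb
  have hb0 : b 0 = 1 := by
    simp only [hb]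
    rw [← Ev_delta L]
    refine Ev_congr L fun d hd => ?_
    rw [hL] at hd
    split_ifs with h
    · subst h
      simp only [Nat.sub_zero]
      rw [qc_self hK]; simp
    · rw [qc_gt (by omega)]; simp
  obtain ⟨Ω, h1, h2, h3⟩ := factor K b (by rw [hb0]; exact one_ne_zero)
  refine ⟨Ω, h1, fun y => ?_, fun ω hω => ?_⟩
  · rw [Ev_TQ]
    have := h2 y
    rw [hb0, one_mul] at this
    exact this
  · have h4 := h3 ω hω
    have h5 : Ev L (TQ N K fun e => (-ω) ^ (K - e)) = 0 := by rw [Ev_TQ]; exact h4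
    have h6 : Ev L (TQ N K fun e => (-ω) ^ (K - e)) =
        Fl ((rt N ^ 2)⁻¹) (L.map fun z => (z, 1, rt N ^ ((K : ℤ) - 1) * -ω)) := by
      rw [← SQ_eq]
      refine Ev_congr L fun d hd => ?_
      rw [TQ_pow hK _ (by omega), hL]
    rw [h6] at h5
    have hη' : ‖(rt N ^ 2)⁻¹ - 1‖ ≤ η := by
      have h0 := rt_ne N
      have e1 : (rt N ^ 2)⁻¹ - 1 = -((rt N ^ 2)⁻¹ * (rt N ^ 2 - 1)) := by
        field_simp
        ring
      rw [e1, norm_neg, norm_mul, norm_inv, norm_pow, norm_rt', one_pow, inv_one, one_mul]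
      exact hη
    by_contra hcon
    push Not at hcon
    refine Fl_ne hρ0 hρ hη0 hη' _ (by rw [List.length_map, hL]; exact hKη) ?_ h5
    intro a ha
    rw [List.mem_map] at ha
    obtain ⟨z, hz, rfl⟩ := ha
    have h7 := hcon z hz
    simp only [norm_neg, norm_mul, norm_rt_zpow, one_mul, List.length_map, hL, norm_one]
    refine ⟨by positivity, ?_⟩
    refine h7.trans (le_of_eq ?_)
    congr 1
    ring

end Pool.Agent.H62.VC
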